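import Pool.Agent.H5.FB.Defs

/-!
# [H5 FB CO] coordinates and automorphisms of `ℤ[z]`

`Φ = ∑_{k<p} X^k`, monic of degree `p - 1`; `z, z^2, ..., z^(p-1)` is a `ℤ`-basis of `O`.
* `coord`: the polynomial `f = ∑_{k=1}^{p-1} C (c k) X^k` has `aeval z f = 0`, so `Φ ∣ f` (`hz.ker`), `f = Φ g`, degrees: `g = C a` constant (`deg f ≤ p - 1`); the coefficient at `X^0`:
  `0 = a`. So `f = 0`.
* `expand`: `x = aeval z f` (`hz.gen`); the set of `x` of the given form is closed under addition and contains `n z^k` for all `k` (`z^k = z^(k % p)` by `hz.pow`, and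
  `z^0 = 1 = - ∑_{k=1}^{p-1} z^k` by `hz.sum`). (`Polynomial.induction_on'` or so.)
* `coord_dvd`: write the quotient with `expand`, subtract, `coord`.
* `aut`: `aeval z : ℤ[X] → O` is surjective, its kernel is generated by `Φ` (`hz.ker`), and `aeval (z^a) Φ = ∑_{k<p} z^(a k) = ∑_{k<p} z^k = 0` (`k ↦ a k mod p` permutes `range p`).
  Lift through the surjection (`RingHom.liftOfSurjective` or the like).
-/

namespace H5FB

open Finset Polynomial H5FA

variable {p : ℕ} {O : Type} [CommRing O] {z : O}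

private theorem co_Icc (hp : p.Prime) (g : ℕ → O) :
    ∑ k ∈ range p, g k = g 0 + ∑ k ∈ Icc 1 (p - 1), g k := by
  have h2 := hp.two_le
  have h1 : Icc 1 (p - 1) = Ico 1 p := by
    ext k
    rw [mem_Icc, mem_Ico]
    omega
  rw [h1, range_eq_Ico, ← Finset.sum_eq_sum_Ico_succ_bot (by omega) g]

private theorem co_mod (hz : Cyc p z) (n : ℕ) : z ^ n = z ^ (n % p) := by
  conv_lhs => rw [← Nat.div_add_mod n p]
  rw [pow_add, pow_mul, hz.pow, one_pow, one_mul]

theorem coord (hp : p.Prime) (hz : Cyc p z) (c : ℕ → ℤ) (h : ∑ k ∈ Icc 1 (p - 1), (c k : O) * z ^ k = 0) :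
    ∀ k ∈ Icc 1 (p - 1), c k = 0 := by
  have h2 := hp.two_le
  obtain ⟨f, hf⟩ : ∃ f : ℤ[X], f = ∑ k ∈ Icc 1 (p - 1), C (c k) * X ^ k := ⟨_, rfl⟩
  have hcoef : ∀ n, f.coeff n = if n ∈ Icc 1 (p - 1) then c n else 0 := by
    intro n
    rw [hf, finsetSum_coeff]
    simp only [coeff_C_mul_X_pow]
    rw [Finset.sum_ite_eq]
  have h1 : aeval z f = 0 := by
    rw [hf, map_sum, ← h]
    refine Finset.sum_congr rfl fun k _ => ?_
    rw [map_mul, map_pow, aeval_X, aeval_C]
    simp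
  have hf0 : f = 0 := by
    by_contra hne
    obtain ⟨g, hg⟩ := hz.ker f h1
    have hmon := Phi_monic hp
    have hdeg := Phi_degree hp
    have hg0 : g ≠ 0 := by
      intro h3
      rw [h3, mul_zero] at hg
      exact hne hg
    have hnd : (∑ k ∈ range p, X ^ k : ℤ[X]).natDegree = p - 1 := natDegree_eq_of_degree_eq_some hdeg
    have h3 : f.natDegree = p - 1 + g.natDegree := by
      rw [hg, hmon.natDegree_mul' hg0, hnd]
    have h4 : f.natDegree ≤ p - 1 := by
      rw [natDegree_le_iff_coeff_eq_zero]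
      intro n hn
      rw [hcoef, if_neg]
      rw [mem_Icc]
      omega
    have h5 : g.natDegree = 0 := by omega
    obtain ⟨a, ha⟩ := natDegree_eq_zero.1 h5
    have h6 := hcoef 0
    rw [if_neg (by rw [mem_Icc]; omega), hg, ← ha, coeff_mul_C] at h6
    have h7 : (∑ k ∈ range p, X ^ k : ℤ[X]).coeff 0 = 1 := by
      rw [finsetSum_coeff]
      simp only [coeff_X_pow]
      rw [Finset.sum_ite_eq, if_pos (mem_range.2 hp.pos)]
    rw [h7, one_mul] at h6
    rw [← ha, h6, C_0] at hg0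
    exact hg0 rfl
  intro k hk
  have h3 := hcoef k
  rw [hf0, coeff_zero, if_pos hk] at h3
  exact h3.symm

theorem expand (hp : p.Prime) (hz : Cyc p z) (x : O) : ∃ c : ℕ → ℤ, x = ∑ k ∈ Icc 1 (p - 1), (c k : O) * z ^ k := by
  have h2 := hp.two_le
  obtain ⟨f, rfl⟩ := hz.gen x
  induction f using Polynomial.induction_on' with
  | add f g hf hg =>
    obtain ⟨c, hc⟩ := hf
    obtain ⟨d, hd⟩ := hg
    refine ⟨fun k => c k + d k, ?_⟩
    rw [map_add, hc, hd, ← Finset.sum_add_distrib]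
    refine Finset.sum_congr rfl fun k _ => ?_
    push_cast
    ring
  | monomial n a =>
    have h1 : aeval z (monomial n a) = (a : O) * z ^ n := by
      rw [aeval_monomial]
      simp
    rw [h1, co_mod hz n]
    obtain ⟨r, hr⟩ : ∃ r, r = n % p := ⟨_, rfl⟩
    have hrp : r < p := by rw [hr]; exact Nat.mod_lt _ hp.pos
    rw [← hr]
    rcases Nat.eq_zero_or_pos r with h0 | h0
    · refine ⟨fun _ => -a, ?_⟩
      have h3 := hz.sum
      rw [co_Icc hp, pow_zero] at h3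
      rw [← Finset.mul_sum, h0, pow_zero]
      have h4 : ∑ k ∈ Icc 1 (p - 1), z ^ k = -1 := by linear_combination h3
      rw [h4]
      push_cast
      ring
    · refine ⟨fun k => if k = r then a else 0, ?_⟩
      rw [Finset.sum_eq_single_of_mem r (by rw [mem_Icc]; omega)]
      · simp only [if_true]
      · intro k _ hk
        simp only [if_neg hk]
        rw [Int.cast_zero, zero_mul]

theorem coord_dvd (hp : p.Prime) (hz : Cyc p z) (c : ℕ → ℤ) (N : ℤ)
    (h : (N : O) ∣ ∑ k ∈ Icc 1 (p - 1), (c k : O) * z ^ k) : ∀ k ∈ Icc 1 (p - 1), N ∣ c k := by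
  obtain ⟨x, hx⟩ := h
  obtain ⟨d, hd⟩ := expand hp hz x
  have h1 : ∑ k ∈ Icc 1 (p - 1), ((c k - N * d k : ℤ) : O) * z ^ k = 0 := by
    have h2 : ∑ k ∈ Icc 1 (p - 1), ((c k - N * d k : ℤ) : O) * z ^ k =
        ∑ k ∈ Icc 1 (p - 1), (c k : O) * z ^ k - (N : O) * ∑ k ∈ Icc 1 (p - 1), (d k : O) * z ^ k := by
      rw [Finset.mul_sum, ← Finset.sum_sub_distrib]
      refine Finset.sum_congr rfl fun k _ => ?_
      push_cast
      ring
    rw [h2, ← hd, hx, sub_self]
  intro k hk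
  have h2 := coord hp hz (fun k => c k - N * d k) h1 k hk
  exact ⟨d k, by linarith⟩

theorem aut (hp : p.Prime) (hz : Cyc p z) (a : ℕ) (ha : ¬ p ∣ a) : ∃ σ : O →+* O, σ z = z ^ a := by
  have hsum : ∑ k ∈ range p, (z ^ a) ^ k = 0 := by
    rw [← hz.sum]
    have hmaps : ∀ k ∈ range p, (a * k) % p ∈ range p := fun k _ =>
      mem_range.2 (Nat.mod_lt _ hp.pos)
    have hinj : Set.InjOn (fun k => (a * k) % p) (range p : Set ℕ) := by
      intro k hk l hl h
      rw [coe_range, Set.mem_Iio] at hk hl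
      have h1 : a * k ≡ a * l [MOD p] := h
      have hc : Nat.gcd p a = 1 := (Nat.Prime.coprime_iff_not_dvd hp).2 ha
      have h3 := Nat.ModEq.cancel_left_of_coprime hc h1
      have h4 : k % p = l % p := h3
      rwa [Nat.mod_eq_of_lt hk, Nat.mod_eq_of_lt hl] at h4
    refine Finset.sum_nbij (fun k => (a * k) % p) hmaps hinj ?_ ?_
    · exact Finset.surjOn_of_injOn_of_card_le _ hmaps hinj le_rfl
    · intro k _
      rw [← pow_mul, co_mod hz]
  have hsurj : Function.Surjective (aeval z : ℤ[X] →ₐ[ℤ] O).toRingHom := by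
    intro x
    obtain ⟨f, hf⟩ := hz.gen x
    exact ⟨f, hf.symm⟩
  have hker : RingHom.ker (aeval z : ℤ[X] →ₐ[ℤ] O).toRingHom ≤
      RingHom.ker (aeval (z ^ a) : ℤ[X] →ₐ[ℤ] O).toRingHom := by
    intro f hf
    rw [RingHom.mem_ker] at hf ⊢
    obtain ⟨g, hg⟩ := hz.ker f hf
    have h1 : aeval (z ^ a) (∑ k ∈ range p, X ^ k : ℤ[X]) = 0 := by
      rw [map_sum]
      simp only [map_pow, aeval_X]
      exact hsum
    have h3 : aeval (z ^ a) f = 0 := by
      rw [hg, map_mul, h1, zero_mul]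
    exact h3
  refine ⟨RingHom.liftOfSurjective (aeval z : ℤ[X] →ₐ[ℤ] O).toRingHom hsurj
    ⟨(aeval (z ^ a) : ℤ[X] →ₐ[ℤ] O).toRingHom, hker⟩, ?_⟩
  have h1 := RingHom.liftOfRightInverse_comp_apply (aeval z : ℤ[X] →ₐ[ℤ] O).toRingHom _
    (Function.rightInverse_surjInv hsurj) ⟨(aeval (z ^ a) : ℤ[X] →ₐ[ℤ] O).toRingHom, hker⟩ X
  have h3 : (aeval z : ℤ[X] →ₐ[ℤ] O).toRingHom X = z := aeval_X z
  have h4 : (aeval (z ^ a) : ℤ[X] →ₐ[ℤ] O).toRingHom X = z ^ a := aeval_X _
  rw [h3] at h1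
  exact h1.trans h4

end H5FB
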