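import Pool.Agent.H5.FA.Bas

/-!
# MP_470117_nt, the quartic obstruction for Feit-Thompson pairs: definitions

`O = ℤ[z]` as in `H5FA.Cyc`, `p ≡ 3` modulo `4`. `QR`, `NR`: the residues and non-residues in `[1, p-1]`, `Sg = ∑ (c/p) z^c` the quadratic Gauss sum (`Sg² = -p`),
`Rp x = ∏_{c ∈ QR} (x - z^c)`, `Np x = ∏_{c ∈ NR} (x - z^c)`, so `Rp x * Np x = 1 + x + ... + x^(p-1)`.
-/

namespace H5FB

open Finset Polynomial H5FA

variable {O : Type} [CommRing O]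

def QR (p : ℕ) [Fact p.Prime] : Finset ℕ := (Icc 1 (p - 1)).filter (fun c => legendreSym p (c : ℤ) = 1)

def NR (p : ℕ) [Fact p.Prime] : Finset ℕ := (Icc 1 (p - 1)).filter (fun c => legendreSym p (c : ℤ) = -1)

def Sg (p : ℕ) [Fact p.Prime] (z : O) : O := ∑ c ∈ Icc 1 (p - 1), (legendreSym p (c : ℤ) : O) * z ^ c

def Rp (p : ℕ) [Fact p.Prime] (x : ℤ) (z : O) : O := ∏ c ∈ QR p, ((x : O) - z ^ c)

def Np (p : ℕ) [Fact p.Prime] (x : ℤ) (z : O) : O := ∏ c ∈ NR p, ((x : O) - z ^ c)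

end H5FB
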