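import Mathlib

/-!
# [H5 FB JAC] Jacobi symbols (elementary, Mathlib only)

* `jac_of_leg`: `jacobiSym a A = ∏` over `A.primeFactorsList` of `legendreSym` (definition of `jacobiSym`), all factors `1`.
* `jac_Y`: `A = X² + p Y²`, `A ≡ 1` modulo `4`, `J(Y | A) ≠ 0`. `|Y| = 2^t y`, `y` odd; `J(-1 | A) = 1` (`jacobiSym.at_neg_one`), so `J(Y | A) = J(2 | A)^t J(y | A)`, and
  `J(y | A) = J(A | y)` (`jacobiSym.quadratic_reciprocity_one_mod_four`), `J(A | y) = J(X² | y) = J(X | y)^2` is `0` or `1`; it is not `0`, so `1`. If `4 ∣ Y` then `A ≡ X² ≡ 1` modulo `8`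
  (`A` is odd, so `X` is odd) and `J(2 | A) = 1` (`ZMod.χ₈`, `jacobiSym.at_two`); otherwise `Y ≡ 2` modulo `4`, `t = 1`.
* `jac_X`: `X` is odd. `J(X | A) = J(|X| | A)` (`J(-1 | A) = 1`) `= J(A | |X|)` (reciprocity, `A ≡ 1` mod `4`) `= J(p Y² | |X|) = J(p | |X|)` (not zero) `= J(|X| | p) (-1)^((|X| - 1)/2)` as `p ≡ 3` modulo `4`
  (`jacobiSym.quadratic_reciprocity`, `_three_mod_four`, `_one_mod_four`), `= legendreSym p X * χ₄(X)`: if `X > 0` clear, if `X < 0`: `legendreSym p (-X) = - legendreSym p X` (`p ≡ 3` mod `4`) and `χ₄(-X) = - χ₄(X)`.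
-/

namespace H5FB

open Finset

open scoped NumberTheorySymbols

theorem jac_of_leg (A : ℕ) (a : ℤ) (h : ∀ r : ℕ, ∀ hr : r.Prime, r ∣ A → (haveI : Fact r.Prime := ⟨hr⟩; legendreSym r a = 1)) :
    jacobiSym a A = 1 := by
  unfold jacobiSym
  refine List.prod_eq_one fun x hx => ?_
  obtain ⟨r, hr, he⟩ := List.mem_pmap.1 hx
  rw [← he]
  exact h r (Nat.prime_of_mem_primeFactorsList hr) (Nat.dvd_of_mem_primeFactorsList hr)

/-- the sign of the numerator does not matter for `A ≡ 1` modulo `4` -/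
private theorem jac_abs (A : ℕ) (h1 : A % 4 = 1) (Y : ℤ) :
    jacobiSym Y A = jacobiSym (Y.natAbs : ℤ) A := by
  rcases Int.natAbs_eq Y with h | h
  · rw [← h]
  · have h2 : ((Y.natAbs : ℕ) : ℤ) = -Y := by omega
    have hodd : Odd A := Nat.odd_iff.2 (by omega)
    rw [h2, jacobiSym.neg Y hodd, ZMod.χ₄_nat_one_mod_four h1, one_mul]

theorem jac_Y (p A : ℕ) (X Y : ℤ) (hA : (A : ℤ) = X ^ 2 + p * Y ^ 2) (h1 : A % 4 = 1) (hY : Y % 2 = 0)
    (h0 : jacobiSym Y A ≠ 0) : jacobiSym Y A = jacobiSym 2 A := by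
  have hodd : Odd A := Nat.odd_iff.2 (by omega)
  by_cases hY0 : Y = 0
  · have hA1 : A = 1 := by
      by_contra hne
      exact h0 (by rw [hY0]; exact jacobiSym.zero_left (by omega))
    rw [hA1, jacobiSym.one_right, jacobiSym.one_right]
  · have hn0 : Y.natAbs ≠ 0 := Int.natAbs_ne_zero.2 hY0
    obtain ⟨t, y, hy, hty⟩ := Nat.exists_eq_two_pow_mul_odd hn0
    have e1 : jacobiSym Y A = jacobiSym 2 A ^ t * jacobiSym (y : ℤ) A := by
      rw [jac_abs A h1 Y, hty]
      push_cast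
      rw [jacobiSym.mul_left, jacobiSym.pow_left]
    have e2 : jacobiSym (y : ℤ) A = jacobiSym (A : ℤ) y :=
      (jacobiSym.quadratic_reciprocity_one_mod_four h1 hy).symm
    have hydvd : (y : ℤ) ∣ Y := by
      rw [← Int.dvd_natAbs, hty]
      push_cast
      exact Dvd.intro_left _ rfl
    have e3 : jacobiSym (A : ℤ) y = jacobiSym X y ^ 2 := by
      rw [← jacobiSym.pow_left]
      refine jacobiSym.mod_left' ?_
      rw [hA]
      refine Int.emod_emod_of_dvd _ (dvd_refl _) |>.symm.trans ?_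
      obtain ⟨w, hw⟩ := hydvd
      rw [hw]
      have : X ^ 2 + (p : ℤ) * ((y : ℤ) * w) ^ 2 = X ^ 2 + (y : ℤ) * ((p : ℤ) * y * w ^ 2) := by
        ring
      rw [this, Int.emod_emod_of_dvd _ (dvd_refl _), Int.add_mul_emod_self_left]
    have e4 : jacobiSym (y : ℤ) A = 1 := by
      have hne : jacobiSym (y : ℤ) A ≠ 0 := fun h => h0 (by rw [e1, h, mul_zero])
      rw [e2, e3] at hne ⊢
      rcases jacobiSym.trichotomy X y with h | h | h
      · exact absurd (by rw [h]; norm_num) hne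
      · rw [h]; norm_num
      · rw [h]; norm_num
    rw [e1, e4, mul_one]
    have ht1 : 1 ≤ t := by
      by_contra hlt
      have ht0 : t = 0 := by omega
      rw [ht0, pow_zero, one_mul] at hty
      have := Nat.odd_iff.1 hy
      omega
    rcases Nat.lt_or_ge t 2 with h2 | h2
    · have : t = 1 := by omega
      rw [this, pow_one]
    · have h4 : (4 : ℤ) ∣ Y := by
        rw [← Int.dvd_natAbs, hty]
        obtain ⟨s, rfl⟩ := Nat.exists_eq_add_of_le h2
        refine ⟨((2 ^ s * y : ℕ) : ℤ), ?_⟩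
        push_cast
        ring
      obtain ⟨w, hw⟩ := h4
      have hX : X % 2 = 1 ∨ X % 2 = 0 := by omega
      have hA8 : A % 8 = 1 := by
        have hAX : (A : ℤ) = X ^ 2 + 16 * (p * w ^ 2) := by
          rw [hA, hw]
          ring
        rcases hX with hX | hX
        · obtain ⟨c, hc⟩ : ∃ c, X = 2 * c + 1 := ⟨X / 2, by omega⟩
          obtain ⟨d, hd⟩ : ∃ d, c * (c + 1) = 2 * d := by
            rcases Int.even_mul_succ_self c with ⟨d, hd⟩
            exact ⟨d, by linarith⟩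
          have : X ^ 2 = 8 * d + 1 := by
            rw [hc]
            linear_combination 4 * hd
          omega
        · obtain ⟨c, hc⟩ : ∃ c, X = 2 * c := ⟨X / 2, by omega⟩
          have : X ^ 2 = 4 * c ^ 2 := by
            rw [hc]
            ring
          omega
      have h5 : jacobiSym 2 A = 1 := by
        rw [jacobiSym.at_two hodd, ZMod.χ₈_nat_mod_eight, hA8]
        rfl
      rw [h5, one_pow]

theorem jac_X (p A : ℕ) [Fact p.Prime] (h3 : p % 4 = 3) (X Y : ℤ) (hA : (A : ℤ) = X ^ 2 + p * Y ^ 2) (h1 : A % 4 = 1)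
    (hY : Y % 2 = 0) (h0 : jacobiSym X A ≠ 0) :
    jacobiSym X A = legendreSym p X * (if X % 4 = 1 then 1 else -1) := by
  have hXodd : X % 2 = 1 := by
    obtain ⟨w, hw⟩ : ∃ w, Y = 2 * w := ⟨Y / 2, by omega⟩
    have hAX : (A : ℤ) = X ^ 2 + 4 * (p * w ^ 2) := by
      rw [hA, hw]
      ring
    by_contra hne
    obtain ⟨c, hc⟩ : ∃ c, X = 2 * c := ⟨X / 2, by omega⟩
    have : X ^ 2 = 4 * c ^ 2 := by
      rw [hc]
      ring
    omega
  obtain ⟨x, hx⟩ : ∃ x : ℕ, x = X.natAbs := ⟨_, rfl⟩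
  have hxodd : Odd x := Nat.odd_iff.2 (by omega)
  have hpodd : Odd p := Nat.odd_iff.2 (by omega)
  have e1 : jacobiSym X A = jacobiSym (x : ℤ) A := by rw [jac_abs A h1 X, hx]
  have e2 : jacobiSym (x : ℤ) A = jacobiSym (A : ℤ) x :=
    (jacobiSym.quadratic_reciprocity_one_mod_four h1 hxodd).symm
  have hxdvd : (x : ℤ) ∣ X := by
    rw [hx]
    exact Int.natAbs_dvd.2 (dvd_refl X)
  have e3 : jacobiSym (A : ℤ) x = jacobiSym (p : ℤ) x * jacobiSym Y x ^ 2 := by
    rw [← jacobiSym.pow_left, ← jacobiSym.mul_left]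
    refine jacobiSym.mod_left' ?_
    rw [hA]
    obtain ⟨w, hw⟩ := hxdvd
    have : X ^ 2 + (p : ℤ) * Y ^ 2 = (p : ℤ) * Y ^ 2 + (x : ℤ) * ((x : ℤ) * w ^ 2) := by
      rw [hw]
      ring
    rw [this, Int.add_mul_emod_self_left]
  have hne : jacobiSym (p : ℤ) x * jacobiSym Y x ^ 2 ≠ 0 := by
    rw [← e3, ← e2, ← e1]
    exact h0
  have e4 : jacobiSym Y x ^ 2 = 1 := by
    rcases jacobiSym.trichotomy Y x with h | h | h
    · exact absurd (by rw [h]; ring) hne
    · rw [h]; norm_num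
    · rw [h]; norm_num
  rw [e4, mul_one] at e3
  have hm1 : legendreSym p (-1) = -1 := by
    rw [legendreSym.at_neg_one (by omega)]
    exact ZMod.χ₄_nat_three_mod_four h3
  have e5 : jacobiSym (p : ℤ) x = legendreSym p (x : ℤ) * (if x % 4 = 1 then 1 else -1) := by
    rw [jacobiSym.legendreSym.to_jacobiSym]
    split_ifs with hx4
    · rw [mul_one]
      exact jacobiSym.quadratic_reciprocity_one_mod_four' hpodd hx4
    · have hx3 : x % 4 = 3 := by
        have := Nat.odd_iff.1 hxodd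
        omega
      rw [jacobiSym.quadratic_reciprocity_three_mod_four h3 hx3]
      ring
  rw [e1, e2, e3, e5]
  rcases Int.natAbs_eq X with h | h
  · have h2 : (x : ℤ) = X := by omega
    have h4 : (x % 4 = 1) ↔ (X % 4 = 1) := by omega
    rw [h2]
    by_cases h5 : x % 4 = 1
    · rw [if_pos h5, if_pos (h4.1 h5)]
    · rw [if_neg h5, if_neg (fun h6 => h5 (h4.2 h6))]
  · have h2 : (x : ℤ) = -X := by omega
    have h4 : (x % 4 = 1) ↔ ¬ (X % 4 = 1) := by omega
    have h6 : legendreSym p (-X) = -legendreSym p X := by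
      rw [neg_eq_neg_one_mul, legendreSym.mul, hm1]
      ring
    rw [h2, h6]
    by_cases h5 : x % 4 = 1
    · rw [if_pos h5, if_neg (h4.1 h5)]
      ring
    · rw [if_neg h5, if_pos (by
        by_contra h7
        exact h5 (h4.2 h7))]
      ring

end H5FB
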