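import Pool.Agent.H5.FA.Exc
import Pool.Agent.H5.FB.Jac

/-!
# [H5 FB EX] arithmetic of an exceptional pair, quadratic part

`A = Aq p q = 1 + q + ... + q^(p-1) = (q^p - 1)/(q - 1)` divides `p^q - 1`. Let `r` be a prime factor of `A`: `p^q = 1` in `ZMod r`, `q^p = 1`, `q ≠ 1` in `ZMod r`, `r ≠ p` (see `H5FA.exc_pow`, `exc_one`).
`p = p^(q+1)` is a square in `ZMod r` (`q` odd), `p` is a fourth power: `4 c = 1 + k q` for some `c, k` (`q` odd), `p = p^(4c)`.
* `q3`: `J(p | A) = 1` (all prime factors `r`: `legendreSym r p = 1`), `A` odd; `A ≡ 1` modulo `p` (`(q - 1) A = q^p - 1 ≡ q - 1`, `p ∤ q - 1` by `exc_one`), so `J(A | p) = 1`; if `q ≡ 1` modulo `4` then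
  `A ≡ p ≡ 3` modulo `4` and reciprocity for `p ≡ A ≡ 3` modulo `4` gives `J(p | A) = - J(A | p) = -1`. So `q ≡ 3` modulo `4` (`q` is odd).
* `r1`: `r ≡ 1` modulo `p` (`q` has order `p`), so `legendreSym p r = 1`; with `legendreSym r p = 1` quadratic reciprocity (`p ≡ 3` mod `4`) excludes `r ≡ 3` modulo `4`; `r` is odd.
* `qord`: `q^p = 1`, `q ≠ 1` in `ZMod r`.
-/

namespace H5FB

open Finset H5FA

private theorem ex_pq (p q : ℕ) (hp : p.Prime) (hq : q.Prime)
    (h : (q ^ p - 1) / (q - 1) ∣ (p ^ q - 1) / (p - 1)) (r : ℕ) (hrA : r ∣ Aq p q) :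
    (p : ZMod r) ^ q = 1 := by
  have h2 := exc_dvd p q hp hq h
  have h3 : ((∑ k ∈ range q, p ^ k : ℕ) : ZMod r) = 0 :=
    (ZMod.natCast_eq_zero_iff _ _).2 (hrA.trans h2)
  have h5 : ((∑ k ∈ range q, p ^ k : ℕ) : ZMod r) * ((p : ZMod r) - 1) = (p : ZMod r) ^ q - 1 := by
    push_cast
    rw [geom_sum_mul]
  rw [h3, zero_mul] at h5
  exact sub_eq_zero.1 h5.symm

private theorem ex_p0 (p q : ℕ) (hp : p.Prime) (hq : q.Prime)
    (h : (q ^ p - 1) / (q - 1) ∣ (p ^ q - 1) / (p - 1)) (r : ℕ) (hr : r.Prime) (hrA : r ∣ Aq p q) :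
    (p : ZMod r) ≠ 0 := by
  have : Fact r.Prime := ⟨hr⟩
  intro h0
  have h1 := ex_pq p q hp hq h r hrA
  rw [h0, zero_pow hq.ne_zero] at h1
  exact zero_ne_one h1

private theorem ex_leg (p q : ℕ) (hp : p.Prime) (hq : q.Prime) (hqo : q % 2 = 1)
    (h : (q ^ p - 1) / (q - 1) ∣ (p ^ q - 1) / (p - 1)) (r : ℕ) (hr : r.Prime) (hrA : r ∣ Aq p q) :
    (haveI : Fact r.Prime := ⟨hr⟩; legendreSym r (p : ℤ) = 1) := by
  have : Fact r.Prime := ⟨hr⟩
  have h0 := ex_p0 p q hp hq h r hr hrA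
  have h1 := ex_pq p q hp hq h r hrA
  rw [legendreSym.eq_one_iff r (by exact_mod_cast h0)]
  refine ⟨(p : ZMod r) ^ ((q + 1) / 2), ?_⟩
  rw [← pow_add]
  have : (q + 1) / 2 + (q + 1) / 2 = q + 1 := by omega
  rw [this, pow_succ, h1, one_mul]
  push_cast
  rfl

private theorem ex_A (p q : ℕ) : ((q : ℤ) - 1) * (Aq p q : ℕ) = (q : ℤ) ^ p - 1 := by
  unfold Aq
  push_cast
  rw [mul_comm, geom_sum_mul]

/-- `A ≡ 1` modulo `p` -/
private theorem ex_A1 (p q : ℕ) (hp : p.Prime) (hq : q.Prime) (hpq : p < q)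
    (h : (q ^ p - 1) / (q - 1) ∣ (p ^ q - 1) / (p - 1)) : ((Aq p q : ℕ) : ZMod p) = 1 := by
  have : Fact p.Prime := ⟨hp⟩
  have h1 := exc_one p q hp hq hpq h
  have h2 : ((q : ZMod p) - 1) ≠ 0 := by
    intro h0
    apply h1
    have : (((q : ℤ) - 1 : ℤ) : ZMod p) = 0 := by
      push_cast
      exact h0
    exact (ZMod.intCast_zmod_eq_zero_iff_dvd ((q : ℤ) - 1) p).1 this
  have h3 : ((q : ZMod p) - 1) * ((Aq p q : ℕ) : ZMod p) = (q : ZMod p) ^ p - 1 := by
    have := congrArg (fun x : ℤ => (x : ZMod p)) (ex_A p q)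
    push_cast at this
    exact this
  rw [ZMod.pow_card] at h3
  exact mul_left_cancel₀ h2 (by rw [h3, mul_one])

private theorem ex_Ap (p q : ℕ) [Fact p.Prime] (hp : p.Prime) (hq : q.Prime) (hpq : p < q)
    (h : (q ^ p - 1) / (q - 1) ∣ (p ^ q - 1) / (p - 1)) : jacobiSym (Aq p q : ℕ) p = 1 := by
  have h1 := ex_A1 p q hp hq hpq h
  have h2 : ((Aq p q : ℕ) : ℤ) % p = 1 % p := by
    have : (((Aq p q : ℕ) : ℤ) : ZMod p) = ((1 : ℤ) : ZMod p) := by
      push_cast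
      exact h1
    exact (ZMod.intCast_eq_intCast_iff' _ _ _).1 this
  rw [jacobiSym.mod_left' h2, jacobiSym.one_left]

private theorem ex_odd (p q : ℕ) (hp : p % 2 = 1) (hq : q % 2 = 1) : Aq p q % 2 = 1 := by
  have h1 : ((Aq p q : ℕ) : ZMod 2) = ((p : ℕ) : ZMod 2) := by
    unfold Aq
    push_cast
    have : (q : ZMod 2) = 1 := by
      have : ((q : ℕ) : ZMod 2) = ((1 : ℕ) : ZMod 2) := by
        rw [ZMod.natCast_eq_natCast_iff']
        omega
      simpa using this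
    rw [this]
    simp
  rw [ZMod.natCast_eq_natCast_iff'] at h1
  omega

theorem q3 (p q : ℕ) (hp : p.Prime) (hq : q.Prime) (h3 : p % 4 = 3) (hpq : p < q)
    (h : (q ^ p - 1) / (q - 1) ∣ (p ^ q - 1) / (p - 1)) : q % 4 = 3 := by
  have : Fact p.Prime := ⟨hp⟩
  have hp2 := hp.two_le
  have hqo : q % 2 = 1 := by
    rcases hq.eq_two_or_odd with h1 | h1
    · omega
    · exact h1
  by_contra hne
  have hq1 : q % 4 = 1 := by omega
  have hA4 : Aq p q % 4 = 3 := by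
    have h1 : ((Aq p q : ℕ) : ZMod 4) = ((p : ℕ) : ZMod 4) := by
      unfold Aq
      push_cast
      have : (q : ZMod 4) = 1 := by
        have : ((q : ℕ) : ZMod 4) = ((1 : ℕ) : ZMod 4) := by
          rw [ZMod.natCast_eq_natCast_iff']
          omega
        simpa using this
      rw [this]
      simp
    rw [ZMod.natCast_eq_natCast_iff'] at h1
    omega
  have h1 : jacobiSym (p : ℤ) (Aq p q) = 1 :=
    jac_of_leg _ _ fun r hr hrA => ex_leg p q hp hq hqo h r hr hrA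
  rw [jacobiSym.quadratic_reciprocity_three_mod_four h3 hA4, ex_Ap p q hp hq hpq h] at h1
  norm_num at h1

theorem qord (p q : ℕ) (hp : p.Prime) (hq : q.Prime) (hpq : p < q) (h : (q ^ p - 1) / (q - 1) ∣ (p ^ q - 1) / (p - 1))
    (r : ℕ) (hr : r.Prime) (hrA : r ∣ Aq p q) : (q : ZMod r) ^ p = 1 ∧ (q : ZMod r) ≠ 1 := by
  have h0 : ((Aq p q : ℕ) : ZMod r) = 0 := (ZMod.natCast_eq_zero_iff _ _).2 hrA
  constructor
  · have h3 : ((q : ZMod r) - 1) * ((Aq p q : ℕ) : ZMod r) = (q : ZMod r) ^ p - 1 := by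
      have := congrArg (fun x : ℤ => (x : ZMod r)) (ex_A p q)
      push_cast at this
      exact this
    rw [h0, mul_zero] at h3
    exact sub_eq_zero.1 h3.symm
  · intro h1
    have h2 : ((Aq p q : ℕ) : ZMod r) = (p : ZMod r) := by
      unfold Aq
      push_cast
      rw [h1]
      simp
    exact ex_p0 p q hp hq h r hr hrA (h2 ▸ h0)

theorem r1 (p q : ℕ) (hp : p.Prime) (hq : q.Prime) (h3 : p % 4 = 3) (hpq : p < q)
    (h : (q ^ p - 1) / (q - 1) ∣ (p ^ q - 1) / (p - 1)) (r : ℕ) (hr : r.Prime) (hrA : r ∣ Aq p q) :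
    r % 4 = 1 ∧ ∃ y : ZMod r, (p : ZMod r) = y ^ 4 := by
  have : Fact p.Prime := ⟨hp⟩
  have : Fact r.Prime := ⟨hr⟩
  have hp2 := hp.two_le
  have hqo : q % 2 = 1 := by
    rcases hq.eq_two_or_odd with h1 | h1
    · omega
    · exact h1
  have hpow := ex_pq p q hp hq h r hrA
  constructor
  · obtain ⟨ho1, ho2⟩ := qord p q hp hq hpq h r hr hrA
    have hord : orderOf (q : ZMod r) = p := orderOf_eq_prime ho1 ho2
    have hq0 : (q : ZMod r) ≠ 0 := by
      intro h0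
      rw [h0, zero_pow hp.ne_zero] at ho1
      exact zero_ne_one ho1
    have hdvd : p ∣ r - 1 := hord ▸ ZMod.orderOf_dvd_card_sub_one hq0
    have hr2 : r % 2 = 1 := by
      rcases hr.eq_two_or_odd with h1 | h1
      · exfalso
        have h2 := ex_odd p q (by omega) hqo
        rw [h1] at hrA
        omega
      · exact h1
    by_contra hne
    have hr3 : r % 4 = 3 := by omega
    have h1 : jacobiSym (p : ℤ) r = 1 := by
      rw [← jacobiSym.legendreSym.to_jacobiSym]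
      exact ex_leg p q hp hq hqo h r hr hrA
    have h2 : jacobiSym (r : ℤ) p = 1 := by
      have h4 : (r : ℤ) % p = 1 % p := by
        have h5 : (p : ℤ) ∣ (r : ℤ) - 1 := by
          obtain ⟨w, hw⟩ := hdvd
          refine ⟨w, ?_⟩
          have := hr.one_lt
          zify [this.le] at hw
          exact hw
        exact (Int.modEq_iff_dvd.2 h5).symm
      rw [jacobiSym.mod_left' h4, jacobiSym.one_left]
    rw [jacobiSym.quadratic_reciprocity_three_mod_four h3 hr3, h2] at h1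
    norm_num at h1
  · have hcop : Nat.Coprime 4 q := by
      have h1 : Nat.Coprime 2 q := (Nat.coprime_primes Nat.prime_two hq).2 (by omega)
      exact Nat.Coprime.pow_left 2 h1
    obtain ⟨m, -, hm⟩ := Nat.exists_mul_mod_eq_one_of_coprime hcop hq.one_lt
    refine ⟨(p : ZMod r) ^ m, ?_⟩
    rw [← pow_mul, mul_comm m 4]
    conv_rhs => rw [← Nat.div_add_mod (4 * m) q]
    rw [hm, pow_add, pow_mul, hpow, one_pow, one_mul, pow_one]

end H5FB
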