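import Pool.Agent.H5.FB.Pr

/-!
# [H5 FB UI] the units `1 / (1 + z^c)`

* `u_ex`: `u c = ∑_{j=0}^{(p-1)/2} z^(2 c j)`: `(1 - z^(2c)) u c = 1 - z^(c (p+1)) = 1 - z^c`, so `(1 - z^c) ((1 + z^c) u c - 1) = 0` and `z^c ≠ 1` (`bas_prim`). `u (p - c) = 1 - u c`:
  `(1 + z^(p-c)) (1 - u c) = (1 + z^(-c)) z^c / (1 + z^c) = 1` (multiply by `(1 + z^c)` and `z^c`). (In the statement: `u` satisfies all that is needed.)
* `u_sum`: `U = ∑_{c ∈ QR} u c` is fixed by `σ z = z^a`, `(a/p) = 1` (`σ (u c) = u ((a c) % p)`: both are inverses of `1 + z^(a c)`); `shape`: `2 U = X + Y Sg` and for `σ z = z^(p-1)` (`aut`):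
  `2 σ U = X - Y Sg`, `σ U = ∑_{c ∈ QR} u (p - c) = (p-1)/2 - U`. So `p - 1 = 2U + 2σU = 2X`, `X = (p-1)/2` (odd because `p ≡ 3` mod `4`), `Y ≡ X` modulo `2`.
* `Rp_near`: `Rp p (-1 + 4w) z = ∏ (-(1 + z^c) + 4w) = ∏ (-(1 + z^c)) (1 - 4 w u c) = Rp p (-1) z ∏ (1 - 4 w u c)`, and `∏ (1 - 4 w u c) ≡ 1 - 4 w ∑ u c` modulo `16` (induction on the set).
-/

namespace H5FB

open Finset Polynomial H5FA

variable {p : ℕ} [Fact p.Prime] {O : Type} [CommRing O] [IsDomain O] {z : O}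

theorem u_ex (hp2 : 2 < p) (hz : Cyc p z) :
    ∃ u : ℕ → O, ∀ c ∈ Icc 1 (p - 1), (1 + z ^ c) * u c = 1 ∧ u c + u (p - c) = 1 := by
  have hp : p.Prime := Fact.out
  have hodd : p % 2 = 1 := by
    rcases hp.eq_two_or_odd with h | h
    · omega
    · exact h
  obtain ⟨u, hu⟩ : ∃ u : ℕ → O, u = fun c => ∑ j ∈ range ((p + 1) / 2), (z ^ (2 * c)) ^ j := ⟨_, rfl⟩
  have key : ∀ c ∈ Icc 1 (p - 1), (1 + z ^ c) * u c = 1 := by
    intro c hc
    rw [mem_Icc] at hc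
    have h1 : u c * (1 - z ^ (2 * c)) = 1 - z ^ c := by
      rw [hu]
      show (∑ j ∈ range ((p + 1) / 2), (z ^ (2 * c)) ^ j) * (1 - z ^ (2 * c)) = 1 - z ^ c
      rw [geom_sum_mul_neg, ← pow_mul]
      have h2 : 2 * c * ((p + 1) / 2) = p * c + c := by
        have h3 : (p + 1) / 2 * 2 = p + 1 := by omega
        calc 2 * c * ((p + 1) / 2) = ((p + 1) / 2 * 2) * c := by ring
          _ = p * c + c := by rw [h3]; ring
      rw [h2, pow_add, pow_mul, hz.pow, one_pow, one_mul]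
    have h3 : (1 - z ^ c) ≠ 0 := by
      intro h0
      have h4 : z ^ c = 1 := (sub_eq_zero.1 h0).symm
      have h5 := (bas_prim hp hz).dvd_of_pow_eq_one c h4
      have := Nat.le_of_dvd (by omega) h5
      omega
    refine mul_left_cancel₀ h3 ?_
    have h4 : z ^ (2 * c) = z ^ c * z ^ c := by rw [← pow_add]; congr 1; ring
    rw [h4] at h1
    linear_combination h1
  refine ⟨u, fun c hc => ⟨key c hc, ?_⟩⟩
  have h1 := key c hc
  have h2 := key (p - c) (by rw [mem_Icc] at hc ⊢; omega)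
  have h3 : z ^ c * z ^ (p - c) = 1 := by
    rw [mem_Icc] at hc
    rw [← pow_add, Nat.add_sub_cancel' (by omega), hz.pow]
  obtain ⟨a, ha⟩ : ∃ a, a = z ^ c := ⟨_, rfl⟩
  obtain ⟨b, hb⟩ : ∃ b, b = z ^ (p - c) := ⟨_, rfl⟩
  obtain ⟨s, hs⟩ : ∃ s, s = u c := ⟨_, rfl⟩
  obtain ⟨t, ht⟩ : ∃ t, t = u (p - c) := ⟨_, rfl⟩
  rw [← ha, ← hs] at h1
  rw [← hb, ← ht] at h2
  rw [← ha, ← hb] at h3
  rw [← hs, ← ht]
  have h4 : (1 + a) * (1 + b) * (s + t - 1) = 0 := by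
    linear_combination (1 + b) * h1 + (1 + a) * h2 - h3
  have h5 : (1 + a) ≠ 0 := fun h0 => one_ne_zero (by rw [← h1, h0, zero_mul])
  have h6 : (1 + b) ≠ 0 := fun h0 => one_ne_zero (by rw [← h2, h0, zero_mul])
  rcases mul_eq_zero.1 h4 with h7 | h7
  · rcases mul_eq_zero.1 h7 with h8 | h8
    · exact absurd h8 h5
    · exact absurd h8 h6
  · linear_combination h7

omit [Fact p.Prime] [IsDomain O] in
private theorem ui_pow (hz : Cyc p z) (n : ℕ) : z ^ n = z ^ (n % p) := by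
  conv_lhs => rw [← Nat.mod_add_div n p]
  rw [pow_add, pow_mul, hz.pow, one_pow, mul_one]

omit [Fact p.Prime] in
private theorem ui_mod (hp : p.Prime) {a m : ℕ} (ha : ¬ p ∣ a) (hm : m ∈ Icc 1 (p - 1)) :
    (a * m) % p ∈ Icc 1 (p - 1) := by
  rw [mem_Icc] at hm ⊢
  have h2 := hp.two_le
  have hlt := Nat.mod_lt (a * m) hp.pos
  refine ⟨?_, by omega⟩
  rw [Nat.one_le_iff_ne_zero]
  intro h
  rcases hp.dvd_mul.1 (Nat.dvd_of_mod_eq_zero h) with h1 | h1
  · exact ha h1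
  · have := Nat.le_of_dvd (by omega) h1
    omega

omit [IsDomain O] in
private theorem ui_aut (hz : Cyc p z) (u : ℕ → O)
    (hu : ∀ c ∈ Icc 1 (p - 1), (1 + z ^ c) * u c = 1 ∧ u c + u (p - c) = 1) {a : ℕ}
    (ha : ¬ p ∣ a) {σ : O →+* O} (hσ : σ z = z ^ a) {c : ℕ} (hc : c ∈ Icc 1 (p - 1)) :
    σ (u c) = u ((a * c) % p) := by
  have hp : p.Prime := Fact.out
  have h1 := congrArg σ (hu c hc).1
  rw [map_mul, map_add, map_one, map_pow, hσ, ← pow_mul, ui_pow hz (a * c)] at h1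
  have h2 := (hu _ (ui_mod hp ha hc)).1
  calc σ (u c) = σ (u c) * ((1 + z ^ ((a * c) % p)) * u ((a * c) % p)) := by rw [h2, mul_one]
    _ = ((1 + z ^ ((a * c) % p)) * σ (u c)) * u ((a * c) % p) := by ring
    _ = u ((a * c) % p) := by rw [h1, one_mul]

private theorem ui_leg_mod (a c : ℕ) :
    legendreSym p (((a * c) % p : ℕ) : ℤ) = legendreSym p (a : ℤ) * legendreSym p (c : ℤ) := by
  have h1 : legendreSym p (((a * c) % p : ℕ) : ℤ) = legendreSym p ((a : ℤ) * (c : ℤ)) := by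
    unfold legendreSym
    congr 1
    push_cast
    rfl
  rw [h1, legendreSym.mul]

theorem u_sum (h3 : p % 4 = 3) (hz : Cyc p z) (u : ℕ → O) (hu : ∀ c ∈ Icc 1 (p - 1), (1 + z ^ c) * u c = 1 ∧ u c + u (p - c) = 1) :
    ∃ n : ℤ, n % 2 = 1 ∧ 2 * ∑ c ∈ QR p, u c = (((p - 1) / 2 : ℕ) : O) + (n : O) * Sg p z := by
  have hp : p.Prime := Fact.out
  have hQ : ∀ c ∈ QR p, c ∈ Icc 1 (p - 1) := fun c hc => (mem_filter.1 hc).1
  have hleg0 : ∀ a : ℕ, legendreSym p (a : ℤ) ≠ 0 → ¬ p ∣ a := by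
    intro a ha hd
    refine ha ?_
    rw [legendreSym.eq_zero_iff]
    rw [Int.cast_natCast, ZMod.natCast_eq_zero_iff]
    exact hd
  obtain ⟨X, Y, hXY, h2U, hσU⟩ := shape h3 hz (∑ c ∈ QR p, u c) (by
    intro a σ ha hσ
    have hpa : ¬ p ∣ a := hleg0 a (by rw [ha]; exact one_ne_zero)
    rw [map_sum]
    have hmap : ∀ c ∈ QR p, (a * c) % p ∈ QR p := by
      intro c hc
      have hc' := mem_filter.1 hc
      refine mem_filter.2 ⟨ui_mod hp hpa hc'.1, ?_⟩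
      rw [ui_leg_mod, ha, hc'.2, one_mul]
    have hinj : Set.InjOn (fun c => (a * c) % p) (QR p : Set ℕ) := by
      intro c hc d hd hcd
      have hc1 := mem_Icc.1 (hQ c (mem_coe.1 hc))
      have hd1 := mem_Icc.1 (hQ d (mem_coe.1 hd))
      have h1 : a * c ≡ a * d [MOD p] := hcd
      have h2 : Nat.gcd p a = 1 := (Nat.Prime.coprime_iff_not_dvd hp).2 hpa
      have h4 := Nat.ModEq.cancel_left_of_coprime h2 h1
      have h5 : c % p = d % p := h4
      rw [Nat.mod_eq_of_lt (by omega), Nat.mod_eq_of_lt (by omega)] at h5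
      exact h5
    have himg : (QR p).image (fun c => (a * c) % p) = QR p := by
      refine Finset.eq_of_subset_of_card_le ?_ ?_
      · intro x hx
        obtain ⟨c, hc, rfl⟩ := mem_image.1 hx
        exact hmap c hc
      · rw [Finset.card_image_of_injOn hinj]
    conv_rhs => rw [← himg]
    rw [Finset.sum_image hinj]
    exact sum_congr rfl fun c hc => ui_aut hz u hu hpa hσ (hQ c hc))
  have hpp : ¬ p ∣ p - 1 := by
    intro hd
    have := Nat.le_of_dvd (by omega) hd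
    omega
  have hlegm : legendreSym p ((p - 1 : ℕ) : ℤ) = -1 := by
    have h1 : legendreSym p (-1) = -1 := by
      rw [legendreSym.at_neg_one (by omega)]
      exact ZMod.χ₄_nat_three_mod_four h3
    rw [← h1]
    unfold legendreSym
    congr 1
    rw [Nat.cast_sub (by omega)]
    push_cast
    simp
  obtain ⟨σ, hσ⟩ := aut hp hz (p - 1) hpp
  have h4 := hσU (p - 1) σ hlegm hσ
  have h5 : σ (∑ c ∈ QR p, u c) = (((p - 1) / 2 : ℕ) : O) - ∑ c ∈ QR p, u c := by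
    rw [map_sum]
    have h6 : ∀ c ∈ QR p, σ (u c) = 1 - u c := by
      intro c hc
      have hc1 := mem_Icc.1 (hQ c hc)
      rw [ui_aut hz u hu hpp hσ (hQ c hc)]
      have h7 : ((p - 1) * c) % p = p - c := by
        have h8 : (((p - 1) * c : ℕ) : ℤ) = (p - c) + p * (c - 1) := by
          rw [Nat.cast_mul, Nat.cast_sub (by omega)]
          push_cast
          ring
        have h9 : (((p - 1) * c : ℕ) : ℤ) % p = p - c := by
          rw [h8, Int.add_mul_emod_self_left, Int.emod_eq_of_lt (by omega) (by omega)]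
        have h10 : ((((p - 1) * c) % p : ℕ) : ℤ) = ((p - c : ℕ) : ℤ) := by
          rw [Nat.cast_sub (by omega)]
          push_cast
          push_cast at h9
          exact h9
        exact_mod_cast h10
      rw [h7]
      linear_combination (hu c (hQ c hc)).2
    rw [sum_congr rfl h6, sum_sub_distrib, sum_const, (QN (p := p) (by omega)).2.2.1, nsmul_eq_mul,
      mul_one]
  have h6 : ((2 * X - 2 * (((p - 1) / 2 : ℕ) : ℤ) : ℤ) : O) = 0 := by
    rw [h5] at h4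
    simp only [Int.cast_sub, Int.cast_mul, Int.cast_natCast, Int.cast_ofNat]
    linear_combination (-1 : O) * h2U - h4
  have h7 := bas_div hp hz (2 * X - 2 * (((p - 1) / 2 : ℕ) : ℤ)) 0 (by rw [h6]; simp)
  rw [zero_dvd_iff] at h7
  have h8 : X = (((p - 1) / 2 : ℕ) : ℤ) := by linarith
  refine ⟨Y, ?_, ?_⟩
  · rw [← hXY, h8]
    omega
  · rw [h2U, h8, Int.cast_natCast]

omit [IsDomain O] in
theorem Rp_near' (u : ℕ → O) (hu : ∀ c ∈ Icc 1 (p - 1), (1 + z ^ c) * u c = 1 ∧ u c + u (p - c) = 1)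
    (w : ℤ) : (16 : O) ∣ Rp p (-1 + 4 * w) z - Rp p (-1) z * (1 - 4 * (w : O) * ∑ c ∈ QR p, u c) := by
  have h1 : Rp p (-1 + 4 * w) z = Rp p (-1) z * ∏ c ∈ QR p, (1 - 4 * (w : O) * u c) := by
    unfold Rp
    rw [← Finset.prod_mul_distrib]
    refine Finset.prod_congr rfl fun c hc => ?_
    have h2 := (hu c (mem_filter.1 hc).1).1
    push_cast
    linear_combination (-4 * (w : O)) * h2
  have h2 : ∀ S : Finset ℕ, (16 : O) ∣ ∏ c ∈ S, (1 - 4 * (w : O) * u c) -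
      (1 - 4 * (w : O) * ∑ c ∈ S, u c) := by
    intro S
    induction S using Finset.induction_on with
    | empty => simp
    | insert a S ha ih =>
      rw [Finset.prod_insert ha, Finset.sum_insert ha]
      obtain ⟨t, ht⟩ := ih
      refine ⟨(1 - 4 * (w : O) * u a) * t + (w : O) ^ 2 * u a * ∑ c ∈ S, u c, ?_⟩
      linear_combination (1 - 4 * (w : O) * u a) * ht
  obtain ⟨t, ht⟩ := h2 (QR p)
  refine ⟨Rp p (-1) z * t, ?_⟩
  rw [h1]
  linear_combination (Rp p (-1) z) * ht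

theorem Rp_near (hz : Cyc p z) (u : ℕ → O) (hu : ∀ c ∈ Icc 1 (p - 1), (1 + z ^ c) * u c = 1 ∧ u c + u (p - c) = 1)
    (w : ℤ) : (16 : O) ∣ Rp p (-1 + 4 * w) z - Rp p (-1) z * (1 - 4 * (w : O) * ∑ c ∈ QR p, u c) :=
  Rp_near' u hu w

end H5FB
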