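import Pool.Agent.H5.FB.Un
import Pool.Agent.H5.FB.Ui

/-!
# [H5 FB XY] `A = X² + p Y²` with congruences modulo `4` and `p`

`e = -(2/p)`, `m = (p-1)/2` (odd). `Rp_shape` for `x = -1 + 4w`: `2 Rp = X₀ + Y₀ Sg`. By `Rp_near`, `Rp_neg_one`, `u_sum`:
`X₀ + Y₀ Sg = 2 Rp ≡ 2e - 4 w e (m + n Sg)` modulo `32` (`2 * 16`; `2 e (4 w U) = 4 w e (2 U)`), so `32 ∣ (X₀ - 2e + 4 w e m) + (Y₀ + 4 w e n) Sg` in `O`; `red`: `16 ∣ X₀ - 2e + 4wem`, `16 ∣ Y₀ + 4wen`.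
So `X₀ = 2X`, `Y₀ = 2Y`, `8 ∣ X - e + 2wem`, `8 ∣ Y + 2wen`; `n`, `e` odd give `Y ≡ 2w` modulo `4`. `Rp = X + Y Sg` (cancel `2`), `Np = X - Y Sg`, `X² + p Y² = ∑ x^k` from `Rp_shape`.
`p ∣ X - (x-1)^m`: `Rp_lam`, `Sg_lam`: `1 - z ∣ X - (x-1)^m` in `O`, `bas_int`.
-/

namespace H5FB

open Finset Polynomial H5FA

variable {p : ℕ} [Fact p.Prime] {O : Type} [CommRing O] [IsDomain O] {z : O}

theorem xy (h3 : p % 4 = 3) (hp3 : 3 < p) (hz : Cyc p z) (w : ℤ) :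
    ∃ X Y : ℤ, Rp p (-1 + 4 * w) z = (X : O) + (Y : O) * Sg p z ∧ Np p (-1 + 4 * w) z = (X : O) - (Y : O) * Sg p z ∧
      X ^ 2 + p * Y ^ 2 = ∑ k ∈ range p, (-1 + 4 * w) ^ k ∧
      (4 : ℤ) ∣ X + legendreSym p 2 * (1 - 2 * w) ∧ (4 : ℤ) ∣ Y - 2 * w ∧
      (p : ℤ) ∣ X - (-1 + 4 * w - 1) ^ ((p - 1) / 2) := by
  have hp : p.Prime := Fact.out
  obtain ⟨u, hu⟩ := u_ex (by omega) hz
  obtain ⟨n, hn, h2U⟩ := u_sum h3 hz u hu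
  obtain ⟨t, ht⟩ := Rp_near hz u hu w
  have hneg := Rp_neg_one h3 hp3 hz
  obtain ⟨X0, Y0, hpar, hR, hN, hsq⟩ := Rp_shape h3 hz (-1 + 4 * w)
  obtain ⟨ℓ, hℓ⟩ : ∃ ℓ, ℓ = legendreSym p 2 := ⟨_, rfl⟩
  have hℓ1 : ℓ = 1 ∨ ℓ = -1 := by
    rw [hℓ]
    refine legendreSym.eq_one_or_neg_one p ?_
    intro h0
    have h1 : ((2 : ℕ) : ZMod p) = 0 := by exact_mod_cast h0
    rw [ZMod.natCast_eq_zero_iff] at h1
    have := Nat.le_of_dvd (by norm_num) h1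
    omega
  rw [← hℓ] at hneg ⊢
  obtain ⟨m, hm⟩ : ∃ m, m = (p - 1) / 2 := ⟨_, rfl⟩
  have hmodd : m % 2 = 1 := by omega
  rw [← hm] at h2U ⊢
  have h2ne : (2 : O) ≠ 0 := by
    intro h0
    have h1 := bas_div hp hz 2 0 (by push_cast; rw [h0])
    rw [zero_dvd_iff] at h1
    norm_num at h1
  have h32 : (((32 : ℤ) : ℤ) : O) ∣ ((X0 + 2 * ℓ - 4 * w * ℓ * m : ℤ) : O) +
      ((Y0 - 4 * w * ℓ * n : ℤ) : O) * Sg p z := by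
    refine ⟨t, ?_⟩
    rw [hneg] at ht
    push_cast
    linear_combination 2 * ht - hR + (4 * (w : O) * (ℓ : O)) * h2U
  obtain ⟨hr1, hr2⟩ := red h3 hz _ _ _ h32
  obtain ⟨x1, hx1⟩ : ∃ x1, X0 + 2 * ℓ - 4 * w * ℓ * m = 16 * x1 := by
    obtain ⟨x1, hx1⟩ := hr1
    exact ⟨x1, by linarith⟩
  obtain ⟨y1, hy1⟩ : ∃ y1, Y0 - 4 * w * ℓ * n = 16 * y1 := by
    obtain ⟨y1, hy1⟩ := hr2
    exact ⟨y1, by linarith⟩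
  obtain ⟨X, hX⟩ : ∃ X, X = -ℓ + 2 * w * ℓ * m + 8 * x1 := ⟨_, rfl⟩
  obtain ⟨Y, hY⟩ : ∃ Y, Y = 2 * w * ℓ * n + 8 * y1 := ⟨_, rfl⟩
  have hX0 : X0 = 2 * X := by rw [hX]; linarith
  have hY0 : Y0 = 2 * Y := by rw [hY]; linarith
  have hRX : Rp p (-1 + 4 * w) z = (X : O) + (Y : O) * Sg p z := by
    refine mul_left_cancel₀ h2ne ?_
    rw [hR, hX0, hY0]
    push_cast
    ring
  refine ⟨X, Y, hRX, ?_, ?_, ?_, ?_, ?_⟩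
  · refine mul_left_cancel₀ h2ne ?_
    rw [hN, hX0, hY0]
    push_cast
    ring
  · rw [hX0, hY0] at hsq
    linarith
  · obtain ⟨m', hm'⟩ : ∃ m' : ℤ, (m : ℤ) = 2 * m' + 1 := ⟨(m : ℤ) / 2, by omega⟩
    refine ⟨w * ℓ * m' + 2 * x1, ?_⟩
    rw [hX, hm']
    ring
  · obtain ⟨n', hn'⟩ : ∃ n' : ℤ, n = 2 * n' + 1 := ⟨n / 2, by omega⟩
    rcases hℓ1 with h | h
    · refine ⟨w * n' + 2 * y1, ?_⟩
      rw [hY, hn', h]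
      ring
    · refine ⟨-(w * n') - w + 2 * y1, ?_⟩
      rw [hY, hn', h]
      ring
  · refine bas_int hp hz _ ?_
    have h1 := Rp_lam (z := z) (by omega : 2 < p) (-1 + 4 * w)
    have h2 : (1 - z) ∣ Sg p z := Sg_lam (by omega)
    rw [← hm] at h1
    have h4 : (((X - (-1 + 4 * w - 1) ^ m : ℤ)) : O) =
        (Rp p (-1 + 4 * w) z - (((-1 + 4 * w : ℤ) : O) - 1) ^ m) - (Y : O) * Sg p z := by
      rw [hRX]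
      push_cast
      ring
    rw [h4]
    exact dvd_sub h1 (h2.mul_left _)

end H5FB
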