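import Pool.Agent.H5.FA.Pi
import Pool.Agent.H5.FB.Xy

/-!
# [H5 FB RES] quadratic residue symbols modulo the primes `r` dividing `A`

`r` prime, `q` has order `p` modulo `r`, `π : O → ZMod r` with `π z = q` (`H5FA.exists_pi`), `s = π (Sg)`, `s² = -p` (`Sg_sq`).
1. `π (Rp p q z) = ∏_{c ∈ QR} (q - q^c) = 0` (`c = 1 ∈ QR`, `legendreSym p 1 = 1`), `π (Np p q z) = ∏_{c ∈ NR} (q - q^c) ≠ 0` (`q^c = q` with `2 ≤ c ≤ p - 1` would give `q^(c-1) = 1`, against the order `p`).
   So `X + Y s = 0`, `X - Y s ≠ 0` in `ZMod r`; hence `X ≠ 0`, `Y ≠ 0`, `2 ≠ 0`.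
2. `χ = quadraticChar (ZMod r)` (`legendreSym r a = χ a`). `r ≡ 1` modulo `4`: `-1 = i²` (`ZMod.exists_sq_eq_neg_one_iff`), `χ (-1) = 1`; `p = y^4`: `s² = (i y²)²`, so `s = ± i y²`, `χ s = χ i` (`y ≠ 0` because `p ≠ 0`:
   `p = 0` in `ZMod r` means `r = p`, but then `q^p = q = 1`). `(1 + i)² = 2 i`, so `χ 2 χ i = 1` (`2 i ≠ 0`), `χ i = χ 2`.
3. `χ X = χ (-1) χ Y χ s = χ Y χ 2`, so `χ (2 X Y) = χ 2 ^2 χ Y^2 = 1`.
-/

namespace H5FB

open Finset Polynomial H5FA

variable {p : ℕ} [Fact p.Prime] {O : Type} [CommRing O] [IsDomain O] {z : O} {r : ℕ} [Fact r.Prime]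

theorem leg (h3 : p % 4 = 3) (hz : Cyc p z) (q X Y : ℤ) (hR : Rp p q z = (X : O) + (Y : O) * Sg p z)
    (hN : Np p q z = (X : O) - (Y : O) * Sg p z) (hq : (q : ZMod r) ^ p = 1) (hq1 : (q : ZMod r) ≠ 1)
    (hr : r % 4 = 1) (hy : ∃ y : ZMod r, (p : ZMod r) = y ^ 4) : legendreSym r (2 * X * Y) = 1 := by
  have hp : p.Prime := Fact.out
  have hp2 := hp.two_le
  obtain ⟨π, hπ⟩ := exists_pi hz (q : ZMod r) hq hq1
  have hord : orderOf (q : ZMod r) = p := orderOf_eq_prime hq hq1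
  have hq0 : (q : ZMod r) ≠ 0 := by
    intro h0
    rw [h0, zero_pow hp.ne_zero] at hq
    exact zero_ne_one hq
  obtain ⟨s, hs⟩ : ∃ s, s = π (Sg p z) := ⟨_, rfl⟩
  have hs2 : s ^ 2 = -(p : ZMod r) := by
    rw [hs, ← map_pow, Sg_sq h3 hz, map_neg, map_natCast]
  have hR0 : (X : ZMod r) + (Y : ZMod r) * s = 0 := by
    have h1 : π (Rp p q z) = 0 := by
      unfold Rp
      rw [map_prod]
      refine prod_eq_zero (i := 1) ?_ ?_
      · unfold QR
        rw [mem_filter, mem_Icc]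
        refine ⟨⟨le_rfl, by omega⟩, ?_⟩
        simp [legendreSym]
      · rw [pow_one, map_sub, map_intCast, hπ, sub_self]
    rw [hR, map_add, map_mul, map_intCast, map_intCast, ← hs] at h1
    exact h1
  have hN0 : (X : ZMod r) - (Y : ZMod r) * s ≠ 0 := by
    have h1 : π (Np p q z) ≠ 0 := by
      unfold Np
      rw [map_prod]
      refine prod_ne_zero_iff.2 fun c hc => ?_
      unfold NR at hc
      rw [mem_filter, mem_Icc] at hc
      have hc1 : c ≠ 1 := by
        rintro rfl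
        have : legendreSym p ((1 : ℕ) : ℤ) = 1 := by simp [legendreSym]
        rw [this] at hc
        norm_num at hc
      rw [map_sub, map_intCast, map_pow, hπ]
      intro h0
      have h2 : (q : ZMod r) ^ (c - 1) = 1 := by
        have h4 : (q : ZMod r) * (q : ZMod r) ^ (c - 1) = (q : ZMod r) * 1 := by
          rw [← pow_succ', mul_one]
          have : c - 1 + 1 = c := by omega
          rw [this]
          exact (sub_eq_zero.1 h0).symm
        exact mul_left_cancel₀ hq0 h4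
      have h5 := orderOf_dvd_of_pow_eq_one h2
      rw [hord] at h5
      have := Nat.le_of_dvd (by omega) h5
      omega
    rw [hN, map_sub, map_mul, map_intCast, map_intCast, ← hs] at h1
    exact h1
  have hX : (X : ZMod r) = -((Y : ZMod r) * s) := by linear_combination hR0
  have hne : (2 : ZMod r) * (Y : ZMod r) * s ≠ 0 := by
    intro h0
    apply hN0
    rw [hX]
    linear_combination -h0
  have h20 : (2 : ZMod r) ≠ 0 := fun h0 => hne (by rw [h0]; ring)
  have hY0 : (Y : ZMod r) ≠ 0 := fun h0 => hne (by rw [h0]; ring)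
  have hs0 : s ≠ 0 := fun h0 => hne (by rw [h0]; ring)
  obtain ⟨i, hi⟩ : IsSquare (-1 : ZMod r) := ZMod.exists_sq_eq_neg_one_iff.2 (by omega)
  obtain ⟨y, hy⟩ := hy
  have hcase : s = i * y ^ 2 ∨ s = -(i * y ^ 2) := by
    apply sq_eq_sq_iff_eq_or_eq_neg.1
    rw [hs2, hy]
    linear_combination y ^ 4 * hi
  have h0 : (((2 * X * Y : ℤ)) : ZMod r) ≠ 0 := by
    push_cast
    rw [hX]
    intro h1
    have : (2 : ZMod r) * (Y : ZMod r) * s * (Y : ZMod r) = 0 := by linear_combination -h1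
    exact (mul_ne_zero hne hY0) this
  rw [legendreSym.eq_one_iff r h0]
  push_cast
  rw [hX]
  rcases hcase with h1 | h1
  · refine ⟨(1 - i) * y * Y, ?_⟩
    rw [h1]
    linear_combination (Y : ZMod r) ^ 2 * y ^ 2 * hi
  · refine ⟨(1 + i) * y * Y, ?_⟩
    rw [h1]
    linear_combination (Y : ZMod r) ^ 2 * y ^ 2 * hi

end H5FB
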