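import Pool.Agent.H5.FA.Kro
import Pool.Agent.H5.FB.Res
import Pool.Agent.H5.FB.Jac
import Pool.Agent.H5.FB.Ex

/-!
# [H5 FB FIN] assembly

`q = -1 + 4w`, `A = Aq p q`, `X`, `Y` from `xy`. `A = X² + p Y² ≡ 1` modulo `4` (`X` odd, `Y` even). By `leg` and `jac_of_leg`: `J(2 X Y | A) = 1`, so `J(X | A)`, `J(Y | A)`, `J(2 | A)` are not `0` and
`J(2|A) J(X|A) J(Y|A) = 1`; `jac_Y`: `J(Y | A) = J(2 | A)`, so `J(X | A) = 1`. `jac_X`: `legendreSym p X * χ₄(X) = 1`. `legendreSym p X = legendreSym p ((q-1)^((p-1)/2)) = legendreSym p ((q-1 / p)) = (q-1 / p)` by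
`p ∣ X - (q-1)^((p-1)/2)`, Euler's criterion and `(-1/p) = -1`; `X ≡ -(2/p)(1 - 2w)` modulo `4`.
-/

namespace H5FB

open Finset Polynomial NumberField H5FA

private theorem fin_pm (p : ℕ) [Fact p.Prime] {a : ℤ} (ha : ¬ (p : ℤ) ∣ a) :
    legendreSym p a = 1 ∨ legendreSym p a = -1 :=
  legendreSym.eq_one_or_neg_one p fun h0 => ha ((ZMod.intCast_zmod_eq_zero_iff_dvd a p).1 h0)

private theorem fin_X (p : ℕ) [Fact p.Prime] (h3 : p % 4 = 3) (X a : ℤ) (ha : ¬ (p : ℤ) ∣ a)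
    (h : (p : ℤ) ∣ X - a ^ ((p - 1) / 2)) : legendreSym p X = legendreSym p a := by
  have h1 : (X : ZMod p) = ((legendreSym p a : ℤ) : ZMod p) := by
    have h2 : ((X - a ^ ((p - 1) / 2) : ℤ) : ZMod p) = 0 :=
      (ZMod.intCast_zmod_eq_zero_iff_dvd _ p).2 h
    push_cast at h2
    rw [legendreSym.eq_pow]
    have h4 : (p - 1) / 2 = p / 2 := by omega
    rw [h4] at h2
    exact sub_eq_zero.1 h2
  have h5 : legendreSym p X = legendreSym p (legendreSym p a) := by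
    unfold legendreSym at h1 ⊢
    rw [h1]
  have hm1 : legendreSym p (-1) = -1 := by
    rw [legendreSym.at_neg_one (by omega)]
    exact ZMod.χ₄_nat_three_mod_four h3
  rw [h5]
  rcases fin_pm p ha with h6 | h6
  · rw [h6, legendreSym.at_one]
  · rw [h6, hm1]

theorem quartic (p q : ℕ) [Fact p.Prime] (hq : q.Prime) (h3 : p % 4 = 3) (hp3 : 3 < p) (hpq : p < q)
    (h : (q ^ p - 1) / (q - 1) ∣ (p ^ q - 1) / (p - 1)) :
    (q % 8 = 7 ∧ legendreSym p (2 * ((q : ℤ) - 1)) = -1) ∨ (q % 8 = 3 ∧ legendreSym p (2 * ((q : ℤ) - 1)) = 1) := by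
  have hp : p.Prime := Fact.out
  obtain ⟨z, hz⟩ := cyc_inst p hp (by omega)
  have hq4 := q3 p q hp hq h3 hpq h
  obtain ⟨w, hw⟩ : ∃ w : ℤ, (q : ℤ) = -1 + 4 * w := ⟨((q : ℤ) + 1) / 4, by omega⟩
  obtain ⟨X, Y, hR, hN, hA, hX4, hY4, hXp⟩ := xy h3 hp3 hz w
  rw [← hw] at hR hN hA hXp
  have hAA : ((Aq p q : ℕ) : ℤ) = X ^ 2 + p * Y ^ 2 := by
    rw [hA]
    unfold Aq
    push_cast
    rfl
  have h2p : ¬ (p : ℤ) ∣ 2 := by
    intro h1
    have := Int.le_of_dvd (by norm_num) h1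
    omega
  have hqp : ¬ (p : ℤ) ∣ (q : ℤ) - 1 := exc_one p q hp hq hpq h
  have hl2 := fin_pm p h2p
  obtain ⟨e, he⟩ : ∃ e : ℤ, e = legendreSym p 2 := ⟨_, rfl⟩
  rw [← he] at hl2 hX4
  have hYe : Y % 2 = 0 := by omega
  have hXo : X % 2 = 1 := by
    rcases hl2 with h1 | h1
    · rw [h1] at hX4
      omega
    · rw [h1] at hX4
      omega
  have hA4 : Aq p q % 4 = 1 := by
    obtain ⟨c, hc⟩ : ∃ c, X = 2 * c + 1 := ⟨X / 2, by omega⟩
    obtain ⟨d, hd⟩ : ∃ d, Y = 2 * d := ⟨Y / 2, by omega⟩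
    have : ((Aq p q : ℕ) : ℤ) = 4 * (c ^ 2 + c + p * d ^ 2) + 1 := by
      rw [hAA, hc, hd]
      ring
    omega
  have hJ : jacobiSym (2 * X * Y) (Aq p q) = 1 := by
    refine jac_of_leg _ _ fun r hr hrA => ?_
    have : Fact r.Prime := ⟨hr⟩
    obtain ⟨ho1, ho2⟩ := qord p q hp hq hpq h r hr hrA
    obtain ⟨hr4, hy⟩ := r1 p q hp hq h3 hpq h r hr hrA
    exact leg h3 hz (q : ℤ) X Y hR hN (by exact_mod_cast ho1) (by exact_mod_cast ho2) hr4 hy
  rw [jacobiSym.mul_left, jacobiSym.mul_left] at hJ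
  have hX0 : jacobiSym X (Aq p q) ≠ 0 := fun h1 => by
    rw [h1] at hJ
    norm_num at hJ
  have hY0 : jacobiSym Y (Aq p q) ≠ 0 := fun h1 => by
    rw [h1] at hJ
    norm_num at hJ
  have h20 : jacobiSym 2 (Aq p q) ≠ 0 := fun h1 => by
    rw [h1] at hJ
    norm_num at hJ
  have hYv := jac_Y p (Aq p q) X Y hAA hA4 hYe hY0
  rw [hYv] at hJ
  have hX1 : jacobiSym X (Aq p q) = 1 := by
    rcases jacobiSym.trichotomy 2 (Aq p q) with h1 | h1 | h1
    · exact absurd h1 h20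
    · rw [h1] at hJ
      linarith
    · rw [h1] at hJ
      linarith
  have hXv := jac_X p (Aq p q) h3 X Y hAA hA4 hYe hX0
  rw [hX1, fin_X p h3 X ((q : ℤ) - 1) hqp hXp] at hXv
  have hq1 := fin_pm p hqp
  have hmul : legendreSym p (2 * ((q : ℤ) - 1)) = e * legendreSym p ((q : ℤ) - 1) := by
    rw [legendreSym.mul, he]
  rw [hmul]
  have hw2 : w % 2 = 0 ∨ w % 2 = 1 := by omega
  rcases hw2 with hw2 | hw2
  · left
    refine ⟨by omega, ?_⟩
    rcases hl2 with h1 | h1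
    · rw [h1] at hX4 ⊢
      rw [if_neg (by omega)] at hXv
      linarith
    · rw [h1] at hX4 ⊢
      rw [if_pos (by omega)] at hXv
      linarith
  · right
    refine ⟨by omega, ?_⟩
    rcases hl2 with h1 | h1
    · rw [h1] at hX4 ⊢
      rw [if_pos (by omega)] at hXv
      linarith
    · rw [h1] at hX4 ⊢
      rw [if_neg (by omega)] at hXv
      linarith

end H5FB
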