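import Pool.Agent.H5.FB.Sh
import Pool.Agent.H5.FA.Prd

/-!
# [H5 FB PR] the two half products

* `Rp_mul_Np`: `∏_{c=1}^{p-1} (x - z^c) = ∑_{k<p} x^k` (evaluate `∑_{k<p} X^k = ∏_{c=1}^{p-1} (X - z^c)`: `z` is a primitive root (`bas_prim`), `X_pow_sub_one_eq_prod` or `cyclotomic`;
  compare `H5FA.prod_yy`), split by `QN`.
* `Rp_aut`: `σ (x - z^c) = x - z^((a c) % p)`, and `c ↦ (a c) % p` maps `QR` to `QR` if `(a/p) = 1`, to `NR` if `(a/p) = -1` (bijections).
* `Rp_shape`: `shape` for `Rp` with `Rp_aut`; `Np` = image under `σ z = z^(p-1)` (`aut`, `-1` is a non-residue). `X^2 + p Y^2 = (X + Y Sg)(X - Y Sg) = 4 Rp Np` in `O` (`Sg_sq`, `Rp_mul_Np`), then in `ℤ`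
  (`bas_div` with `m = 0`: an integer which is `0` in `O` is `0`).
* `Rp_lam`: `x - z^c ≡ x - 1` modulo `1 - z`, `card QR = (p-1)/2` (`QN`).
-/

namespace H5FB

open Finset Polynomial H5FA

variable {p : ℕ} [Fact p.Prime] {O : Type} [CommRing O] [IsDomain O] {z : O}

private theorem prodZ {A : Type} [CommMonoid A] (f : ℕ → A) (ε : ℤ) (hε : ε ≠ 0) :
    ∏ c ∈ (Icc 1 (p - 1)).filter (fun c => legendreSym p ((c : ℕ) : ℤ) = ε), f c =
      ∏ y ∈ univ.filter (fun y : ZMod p => quadraticChar (ZMod p) y = ε), f y.val := by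
  have hp := (Fact.out : p.Prime).two_le
  refine prod_bij' (fun k _ => ((k : ℕ) : ZMod p)) (fun x _ => x.val) ?_ ?_ ?_ ?_ ?_
  · intro k hk
    obtain ⟨h1, h2⟩ := mem_filter.1 hk
    rw [mem_filter]
    refine ⟨mem_univ _, ?_⟩
    rw [← h2]
    unfold legendreSym
    rw [Int.cast_natCast]
  · intro y hy
    have hy2 := (mem_filter.1 hy).2
    have hy0 : y ≠ 0 := by
      rintro rfl
      rw [quadraticChar_zero] at hy2
      exact hε hy2.symm
    have h1 := ZMod.val_lt y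
    have h2 : y.val ≠ 0 := fun h => hy0 ((ZMod.val_eq_zero y).1 h)
    rw [mem_filter, mem_Icc]
    refine ⟨⟨by omega, by omega⟩, ?_⟩
    unfold legendreSym
    rw [Int.cast_natCast, ZMod.natCast_zmod_val]
    exact hy2
  · intro k hk
    have h1 := mem_Icc.1 (mem_filter.1 hk).1
    exact ZMod.val_cast_of_lt (by omega)
  · intro y _
    exact ZMod.natCast_zmod_val y
  · intro k hk
    have h1 := mem_Icc.1 (mem_filter.1 hk).1
    rw [ZMod.val_cast_of_lt (by omega)]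

private theorem leg_ne {a : ℕ} (h : legendreSym p (a : ℤ) ≠ 0) : ((a : ℕ) : ZMod p) ≠ 0 := by
  intro h0
  apply h
  rw [legendreSym.eq_zero_iff, Int.cast_natCast]
  exact h0

theorem prod_shift {A : Type} [CommMonoid A] (f : ℕ → A) (hf : ∀ n, f (n % p) = f n) (a : ℕ)
    (ha : legendreSym p (a : ℤ) ≠ 0) (ε : ℤ) (hε : ε ≠ 0) :
    ∏ c ∈ (Icc 1 (p - 1)).filter (fun c => legendreSym p ((c : ℕ) : ℤ) = ε), f (a * c) =
      ∏ c ∈ (Icc 1 (p - 1)).filter (fun c => legendreSym p ((c : ℕ) : ℤ) = legendreSym p (a : ℤ) * ε), f c := by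
  rw [prodZ (fun c => f (a * c)) ε hε, prodZ f _ (mul_ne_zero ha hε)]
  have e0 : legendreSym p (a : ℤ) = quadraticChar (ZMod p) ((a : ℕ) : ZMod p) := by
    unfold legendreSym
    rw [Int.cast_natCast]
  refine prod_equiv (Equiv.mulLeft₀ ((a : ℕ) : ZMod p) (leg_ne ha)) (fun y => ?_) (fun y _ => ?_)
  · rw [mem_filter, mem_filter, Equiv.mulLeft₀_apply, map_mul, e0]
    rw [e0] at ha
    constructor
    · rintro ⟨-, h1⟩
      exact ⟨mem_univ _, by rw [h1]⟩
    · rintro ⟨-, h1⟩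
      exact ⟨mem_univ _, mul_left_cancel₀ ha h1⟩
  · rw [Equiv.mulLeft₀_apply, ZMod.val_mul, ZMod.val_natCast, Nat.mod_mul_mod, hf]

omit [IsDomain O] [Fact p.Prime] in
private theorem fmod (hz : Cyc p z) (x : O) (n : ℕ) : x - z ^ (n % p) = x - z ^ n := by
  rw [← pow_eq_pow_mod n hz.pow]

omit [IsDomain O] in
theorem cast_inj (hz : Cyc p z) {n m : ℤ} (h : (n : O) = (m : O)) : n = m := by
  have h1 : ((0 : ℤ) : O) ∣ ((n - m : ℤ) : O) := by
    rw [Int.cast_sub, h, sub_self]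
    exact dvd_zero _
  have h2 := zero_dvd_iff.1 (bas_div Fact.out hz (n - m) 0 h1)
  linarith

theorem Rp_mul_Np (hp2 : 2 < p) (hz : Cyc p z) (x : ℤ) : Rp p x z * Np p x z = ∑ k ∈ range p, (x : O) ^ k := by
  have hp : p.Prime := Fact.out
  obtain ⟨h1, h2, -, -⟩ := QN (p := p) hp2
  unfold Rp Np
  rw [← prod_union h2, h1]
  have h3 := congrArg (eval (x : O)) (prd_poly hp hz)
  rw [eval_prod, eval_finsetSum] at h3
  simp only [eval_sub, eval_X, eval_C, eval_pow] at h3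
  exact h3

theorem Rp_aut (hz : Cyc p z) (x : ℤ) (σ : O →+* O) (a : ℕ) (hσ : σ z = z ^ a) :
    (legendreSym p (a : ℤ) = 1 → σ (Rp p x z) = Rp p x z) ∧ (legendreSym p (a : ℤ) = -1 → σ (Rp p x z) = Np p x z) := by
  have key : legendreSym p (a : ℤ) ≠ 0 → σ (Rp p x z) =
      ∏ c ∈ (Icc 1 (p - 1)).filter (fun c => legendreSym p ((c : ℕ) : ℤ) = legendreSym p (a : ℤ) * 1), ((x : O) - z ^ c) := by
    intro h
    rw [← prod_shift (fun n => (x : O) - z ^ n) (fmod hz (x : O)) a h 1 one_ne_zero]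
    unfold Rp QR
    rw [map_prod]
    refine prod_congr rfl fun c _ => ?_
    rw [map_sub, map_intCast, map_pow, hσ, ← pow_mul]
  constructor
  · intro h
    rw [key (by rw [h]; norm_num), h]
    rfl
  · intro h
    rw [key (by rw [h]; norm_num), h]
    rfl

theorem Rp_shape (h3 : p % 4 = 3) (hz : Cyc p z) (x : ℤ) :
    ∃ X Y : ℤ, X % 2 = Y % 2 ∧ 2 * Rp p x z = (X : O) + (Y : O) * Sg p z ∧
      2 * Np p x z = (X : O) - (Y : O) * Sg p z ∧ X ^ 2 + p * Y ^ 2 = 4 * ∑ k ∈ range p, x ^ k := by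
  have hp : p.Prime := Fact.out
  have hp1 : ¬ p ∣ p - 1 := by
    intro hd
    have := Nat.le_of_dvd (by omega) hd
    omega
  obtain ⟨X, Y, hXY, h1, h2⟩ := shape h3 hz (Rp p x z) (fun a σ ha hσ => (Rp_aut hz x σ a hσ).1 ha)
  obtain ⟨σ, hσ⟩ := aut hp hz (p - 1) hp1
  have hl : legendreSym p ((p - 1 : ℕ) : ℤ) = -1 := by
    have h4 : legendreSym p (-1) = -1 := by
      rw [legendreSym.at_neg_one (by omega)]
      exact ZMod.χ₄_nat_three_mod_four h3
    rw [← h4]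
    unfold legendreSym
    congr 1
    rw [Nat.cast_sub (by omega)]
    push_cast
    simp
  have h5 := h2 (p - 1) σ hl hσ
  rw [(Rp_aut hz x σ (p - 1) hσ).2 hl] at h5
  refine ⟨X, Y, hXY, h1, h5, ?_⟩
  apply cast_inj (O := O) hz
  have h6 := Rp_mul_Np (by omega) hz x
  have h7 := Sg_sq h3 hz
  have h8 : ((X : O) + Y * Sg p z) * ((X : O) - Y * Sg p z) = 4 * (Rp p x z * Np p x z) := by
    rw [← h1, ← h5]
    ring
  rw [h6] at h8
  push_cast
  rw [← h8]
  linear_combination ((Y : O) ^ 2) * h7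

theorem Rp_lam (hp2 : 2 < p) (x : ℤ) : (1 - z) ∣ Rp p x z - ((x : O) - 1) ^ ((p - 1) / 2) := by
  obtain ⟨-, -, h3, -⟩ := QN (p := p) hp2
  have h1 : ∀ s : Finset ℕ, (1 - z) ∣ ∏ c ∈ s, ((x : O) - z ^ c) - ((x : O) - 1) ^ s.card := by
    intro s
    induction s using Finset.induction_on with
    | empty => simp
    | insert a s ha ih =>
      rw [prod_insert ha, card_insert_of_notMem ha, pow_succ]
      have e : ((x : O) - z ^ a) * ∏ c ∈ s, ((x : O) - z ^ c) - ((x : O) - 1) ^ s.card * ((x : O) - 1) =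
          ((x : O) - z ^ a) * (∏ c ∈ s, ((x : O) - z ^ c) - ((x : O) - 1) ^ s.card) +
            (1 ^ a - z ^ a) * ((x : O) - 1) ^ s.card := by
        rw [one_pow]
        ring
      rw [e]
      exact dvd_add (Dvd.dvd.mul_left ih _) (Dvd.dvd.mul_right (sub_dvd_pow_sub_pow 1 z a) _)
  have h2 := h1 (QR p)
  rw [h3] at h2
  exact h2

end H5FB
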