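import Pool.Agent.H5.FB.Defs

/-!
# [H5 FB SGM] the quadratic Gauss sum

`χ = quadraticChar (ZMod p)` mapped to `O` (`MulChar.ringHomComp`), `ψ = AddChar.zmodChar p (z^p = 1)`.
* `QN`: every `c ∈ [1, p-1]` has `legendreSym p c = ± 1`; there are `(p-1)/2` of each sort because `∑_{x : ZMod p} quadraticChar x = 0` (`quadraticChar_sum_zero`).
* `Sg_sq`: Mathlib's `gaussSum_sq` (`Mathlib/NumberTheory/GaussSum.lean`), `χ (-1) = -1` for `p ≡ 3` modulo `4` (`ZMod.χ₄`, `legendreSym.at_neg_one`), `bas_prim` and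
  `AddChar.zmodChar_primitive_of_primitive_root`. The sum over `ZMod p` is the sum over `range p` (`c = 0` contributes `0`).
* `Sg_aut`: `σ (z^c) = z^(a c) = z^((a c) % p)`, reindex by `c ↦ (a c) % p` (a permutation of `[1, p-1]`), `(c/p) = (a/p) (a c/p)`.
* `Sg_lam`: `∑_c (c/p) = 0`, so `Sg = ∑ (c/p) (z^c - 1)`.
-/

namespace H5FB

open Finset Polynomial H5FA

variable {p : ℕ} [Fact p.Prime] {O : Type} [CommRing O] {z : O}

private theorem sum_zmod {A : Type} [AddCommMonoid A] (f : ZMod p → A) :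
    ∑ x : ZMod p, f x = ∑ k ∈ range p, f ((k : ℕ) : ZMod p) := by
  symm
  refine sum_bij' (fun k _ => ((k : ℕ) : ZMod p)) (fun x _ => x.val) ?_ ?_ ?_ ?_ ?_
  · intro k _
    exact mem_univ _
  · intro x _
    exact mem_range.2 (ZMod.val_lt x)
  · intro k hk
    exact ZMod.val_cast_of_lt (mem_range.1 hk)
  · intro x _
    exact ZMod.natCast_zmod_val x
  · intro k _
    rfl

private theorem range_ins : range p = insert 0 (Icc 1 (p - 1)) := by
  have h2 := (Fact.out : p.Prime).two_le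
  ext k
  rw [mem_range, mem_insert, mem_Icc]
  omega

private theorem cast_ne {c : ℕ} (hc : c ∈ Icc 1 (p - 1)) : (((c : ℕ) : ℤ) : ZMod p) ≠ 0 := by
  rw [mem_Icc] at hc
  rw [Int.cast_natCast, Ne, ZMod.natCast_eq_zero_iff]
  intro hd
  have := Nat.le_of_dvd (by omega) hd
  omega

private theorem uni : QR p ∪ NR p = Icc 1 (p - 1) ∧ Disjoint (QR p) (NR p) := by
  constructor
  · unfold QR NR
    rw [← filter_or]
    exact filter_true_of_mem fun c hc => legendreSym.eq_one_or_neg_one p (cast_ne hc)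
  · unfold QR NR
    rw [disjoint_filter]
    intro c _ h1 h2
    rw [h1] at h2
    norm_num at h2

private theorem leg_sum (hp2 : 2 < p) : ∑ c ∈ Icc 1 (p - 1), legendreSym p (c : ℤ) = 0 := by
  have h1 : ∑ x : ZMod p, quadraticChar (ZMod p) x = 0 := by
    apply quadraticChar_sum_zero
    rw [ZMod.ringChar_zmod_n]
    omega
  rw [sum_zmod, range_ins, sum_insert (by rw [mem_Icc]; omega)] at h1
  rw [Nat.cast_zero, quadraticChar_zero, zero_add] at h1
  rw [← h1]
  refine sum_congr rfl fun c _ => ?_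
  unfold legendreSym
  rw [Int.cast_natCast]

private theorem Sg_zmod : Sg p z = ∑ x : ZMod p, ((quadraticChar (ZMod p) x : ℤ) : O) * z ^ x.val := by
  rw [sum_zmod, range_ins, sum_insert (by rw [mem_Icc]; omega), Nat.cast_zero, quadraticChar_zero, Int.cast_zero,
    zero_mul, zero_add]
  unfold Sg
  refine sum_congr rfl fun c hc => ?_
  rw [ZMod.val_cast_of_lt (by rw [mem_Icc] at hc; omega)]
  unfold legendreSym
  rw [Int.cast_natCast]

theorem QN (hp2 : 2 < p) : QR p ∪ NR p = Icc 1 (p - 1) ∧ Disjoint (QR p) (NR p) ∧ (QR p).card = (p - 1) / 2 ∧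
    (NR p).card = (p - 1) / 2 := by
  obtain ⟨h1, h2⟩ := uni (p := p)
  have h3 : (QR p).card + (NR p).card = p - 1 := by
    rw [← card_union_of_disjoint h2, h1, Nat.card_Icc]
    omega
  have h4 : ((QR p).card : ℤ) - (NR p).card = 0 := by
    have e1 : ∑ c ∈ QR p, legendreSym p (c : ℤ) = ((QR p).card : ℤ) := by
      have e2 : ∑ c ∈ QR p, legendreSym p (c : ℤ) = ∑ c ∈ QR p, (1 : ℤ) :=
        sum_congr rfl fun c hc => (mem_filter.1 hc).2
      rw [e2]
      simp
    have e3 : ∑ c ∈ NR p, legendreSym p (c : ℤ) = -((NR p).card : ℤ) := by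
      have e2 : ∑ c ∈ NR p, legendreSym p (c : ℤ) = ∑ c ∈ NR p, (-1 : ℤ) :=
        sum_congr rfl fun c hc => (mem_filter.1 hc).2
      rw [e2]
      simp
    rw [← leg_sum hp2, ← h1, sum_union h2, e1, e3]
    ring
  refine ⟨h1, h2, ?_, ?_⟩ <;> omega

theorem Sg_eq : Sg p z = ∑ c ∈ QR p, z ^ c - ∑ c ∈ NR p, z ^ c := by
  obtain ⟨h1, h2⟩ := uni (p := p)
  unfold Sg
  rw [← h1, sum_union h2, sub_eq_add_neg, ← sum_neg_distrib]
  congr 1
  · refine sum_congr rfl fun c hc => ?_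
    rw [(mem_filter.1 hc).2, Int.cast_one, one_mul]
  · refine sum_congr rfl fun c hc => ?_
    rw [(mem_filter.1 hc).2, Int.cast_neg, Int.cast_one, neg_one_mul]

theorem Sg_sq [IsDomain O] (h3 : p % 4 = 3) (hz : Cyc p z) : Sg p z ^ 2 = -(p : O) := by
  have hp : p.Prime := Fact.out
  have hprim := bas_prim hp hz
  have hinj : Function.Injective (Int.castRingHom O) := by
    rw [injective_iff_map_eq_zero]
    intro n hn
    have h1 : ((0 : ℤ) : O) ∣ (n : O) := by
      rw [eq_intCast] at hn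
      rw [hn]
      exact dvd_zero _
    exact zero_dvd_iff.1 (bas_div hp hz n 0 h1)
  have hne : (quadraticChar (ZMod p)).ringHomComp (Int.castRingHom O) ≠ 1 := by
    rw [MulChar.ringHomComp_ne_one_iff hinj]
    apply quadraticChar_ne_one
    rw [ZMod.ringChar_zmod_n]
    omega
  have hq := (quadraticChar_isQuadratic (F := ZMod p)).comp (Int.castRingHom O)
  have hg := gaussSum_sq hne hq (AddChar.zmodChar_primitive_of_primitive_root p hprim)
  have e1 : gaussSum ((quadraticChar (ZMod p)).ringHomComp (Int.castRingHom O))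
      (AddChar.zmodChar p ((IsPrimitiveRoot.iff_def z p).mp hprim).left) = Sg p z := by
    rw [Sg_zmod]
    rfl
  rw [e1] at hg
  rw [hg, ZMod.card]
  have h1 : legendreSym p (-1) = -1 := by
    rw [legendreSym.at_neg_one (by omega)]
    exact ZMod.χ₄_nat_three_mod_four h3
  have h2 : ((quadraticChar (ZMod p)).ringHomComp (Int.castRingHom O)) (-1) = -1 := by
    rw [MulChar.ringHomComp_apply]
    unfold legendreSym at h1
    rw [Int.cast_neg, Int.cast_one] at h1
    rw [h1]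
    simp
  rw [h2]
  ring

theorem Sg_aut (hz : Cyc p z) (σ : O →+* O) (a : ℕ) (ha : ¬ p ∣ a) (hσ : σ z = z ^ a) :
    σ (Sg p z) = (legendreSym p (a : ℤ) : O) * Sg p z := by
  have hp : p.Prime := Fact.out
  have ha' : ((a : ℕ) : ZMod p) ≠ 0 := by
    rw [Ne, ZMod.natCast_eq_zero_iff]
    exact ha
  have e0 : legendreSym p (a : ℤ) = quadraticChar (ZMod p) ((a : ℕ) : ZMod p) := by
    unfold legendreSym
    rw [Int.cast_natCast]
  have hsq := quadraticChar_sq_one ha'
  rw [Sg_zmod, map_sum, mul_sum, e0]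
  refine Fintype.sum_equiv (Equiv.mulLeft₀ ((a : ℕ) : ZMod p) ha') _ _ fun x => ?_
  rw [Equiv.mulLeft₀_apply, map_mul, map_intCast, map_pow, hσ, ← pow_mul, map_mul]
  have e1 : z ^ (a * x.val) = z ^ (((a : ℕ) : ZMod p) * x).val := by
    rw [pow_eq_pow_mod _ hz.pow, ZMod.val_mul, ZMod.val_natCast, Nat.mod_mul_mod]
  rw [e1]
  have e2 : ((quadraticChar (ZMod p) ((a : ℕ) : ZMod p) : ℤ) : O) ^ 2 = 1 := by
    rw [← Int.cast_pow, hsq, Int.cast_one]
  push_cast
  linear_combination (-(((quadraticChar (ZMod p) x : ℤ) : O) * z ^ (((a : ℕ) : ZMod p) * x).val)) * e2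

theorem Sg_lam (hp2 : 2 < p) : (1 - z) ∣ Sg p z := by
  have h1 : Sg p z = ∑ c ∈ Icc 1 (p - 1), (legendreSym p (c : ℤ) : O) * (z ^ c - 1) := by
    have h2 := congrArg (fun n : ℤ => (n : O)) (leg_sum hp2)
    simp only [Int.cast_sum, Int.cast_zero] at h2
    unfold Sg
    have h3 : ∑ c ∈ Icc 1 (p - 1), (legendreSym p (c : ℤ) : O) * (z ^ c - 1) =
        ∑ c ∈ Icc 1 (p - 1), (legendreSym p (c : ℤ) : O) * z ^ c - ∑ c ∈ Icc 1 (p - 1), (legendreSym p (c : ℤ) : O) := by
      rw [← sum_sub_distrib]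
      refine sum_congr rfl fun c _ => ?_
      ring
    rw [h3, h2, sub_zero]
  rw [h1]
  refine dvd_sum fun c _ => Dvd.dvd.mul_left ?_ _
  have h4 := sub_dvd_pow_sub_pow 1 z c
  rw [one_pow] at h4
  have h5 : z ^ c - 1 = -(1 - z ^ c) := by ring
  rw [h5]
  exact dvd_neg.2 h4

end H5FB
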