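import Pool.Agent.H5.FB.Co
import Pool.Agent.H5.FB.Sgm
import Pool.Agent.H5.FA.Iv

/-!
# [H5 FB SH] elements fixed by the squares

* `shape`: `x = ∑_{k=1}^{p-1} c_k z^k` (`expand`). For `a` a residue and `σ z = z^a` (`aut`): `σ x = ∑ c_k z^((a k) % p) = x`, so `c_((a k) % p) = c_k` (`coord` for the difference; reindex).
  With `k = 1`, `a ∈ QR`: `c_a = c_1` for all `a ∈ QR`. With `k = p - 1` (`-1` is a non-residue, `p ≡ 3` mod `4`): every `n ∈ NR` is `(a (p-1)) % p` with `a = p - n ∈ QR`, so `c_n = c_(p-1)`.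
  So `x = c_1 η₀ + c_(p-1) η₁`, `η₀ = ∑_{QR} z^k`, `η₁ = ∑_{NR} z^k`, `η₀ + η₁ = -1` (`hz.sum`), `η₀ - η₁ = Sg` (`Sg_eq`). `X = -(c_1 + c_(p-1))`, `Y = c_1 - c_(p-1)`.
  For `σ z = z^a`, `(a/p) = -1`: `σ (2x) = X + Y σ(Sg) = X - Y Sg` (`Sg_aut`).
* `red`: `a + b Sg = ∑_{k=1}^{p-1} (-a + b (k/p)) z^k` (`hz.sum`), `coord_dvd` at a residue (`k = 1`) and at a non-residue (`k = p - 1`): `N ∣ -a + b`, `N ∣ -a - b`.
-/

namespace H5FB

open Finset Polynomial H5FA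

variable {p : ℕ} [Fact p.Prime] {O : Type} [CommRing O] {z : O}

omit [Fact p.Prime] in
private theorem sh_pow (hz : Cyc p z) (n : ℕ) : z ^ n = z ^ (n % p) := by
  conv_lhs => rw [← Nat.mod_add_div n p]
  rw [pow_add, pow_mul, hz.pow, one_pow, mul_one]

omit [Fact p.Prime] in
private theorem sh_mod (hp : p.Prime) {a m : ℕ} (ha : a ∈ Icc 1 (p - 1)) (hm : m ∈ Icc 1 (p - 1)) :
    (a * m) % p ∈ Icc 1 (p - 1) := by
  rw [mem_Icc] at ha hm ⊢
  have h2 := hp.two_le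
  have hlt := Nat.mod_lt (a * m) hp.pos
  refine ⟨?_, by omega⟩
  rw [Nat.one_le_iff_ne_zero]
  intro h
  rcases hp.dvd_mul.1 (Nat.dvd_of_mod_eq_zero h) with h1 | h1
  · have := Nat.le_of_dvd (by omega) h1
    omega
  · have := Nat.le_of_dvd (by omega) h1
    omega

omit [Fact p.Prime] in
private theorem sh_inv {a b m : ℕ} (hp : p.Prime) (hab : (a * b) % p = 1) (hm : m ∈ Icc 1 (p - 1)) :
    (b * ((a * m) % p)) % p = m := by
  rw [mem_Icc] at hm
  have h2 := hp.two_le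
  rw [Nat.mul_mod, Nat.mod_mod, ← Nat.mul_mod, ← mul_assoc, mul_comm b a, Nat.mul_mod, hab,
    one_mul, Nat.mod_mod, Nat.mod_eq_of_lt (by omega)]

omit [Fact p.Prime] in
private theorem sh_sum (hp : p.Prime) (hz : Cyc p z) : ∑ k ∈ Icc 1 (p - 1), z ^ k = -1 := by
  have h := hz.sum
  have h2 := hp.two_le
  have e : range p = insert 0 (Icc 1 (p - 1)) := by
    ext k
    rw [mem_range, mem_insert, mem_Icc]
    omega
  rw [e, sum_insert (by rw [mem_Icc]; omega), pow_zero] at h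
  linear_combination h

private theorem sh_leg1 : legendreSym p ((1 : ℕ) : ℤ) = 1 := by
  simp [legendreSym]

private theorem sh_leg (h3 : p % 4 = 3) {n : ℕ} (hn : n ∈ Icc 1 (p - 1)) :
    legendreSym p ((p - n : ℕ) : ℤ) = -legendreSym p (n : ℤ) := by
  rw [mem_Icc] at hn
  have hp2 : p ≠ 2 := by omega
  have h1 : legendreSym p (-1) = -1 := by
    rw [legendreSym.at_neg_one hp2]
    exact ZMod.χ₄_nat_three_mod_four h3
  have h2 : legendreSym p ((p - n : ℕ) : ℤ) = legendreSym p ((-1) * (n : ℤ)) := by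
    unfold legendreSym
    congr 1
    rw [Nat.cast_sub (by omega)]
    push_cast
    simp
  rw [h2, legendreSym.mul, h1]
  ring

private theorem sh_eq (hz : Cyc p z) (c : ℕ → ℤ) (x : O)
    (hx : x = ∑ k ∈ Icc 1 (p - 1), (c k : O) * z ^ k) {a : ℕ} (ha : a ∈ Icc 1 (p - 1))
    {σ : O →+* O} (hσ : σ z = z ^ a) (hσx : σ x = x) {k : ℕ} (hk : k ∈ Icc 1 (p - 1)) :
    c ((a * k) % p) = c k := by
  have hp : p.Prime := Fact.out
  obtain ⟨hb, hab⟩ := iv_facts hp ha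
  obtain ⟨b, hb'⟩ : ∃ b, b = iv p a := ⟨_, rfl⟩
  rw [← hb'] at hb hab
  have hba : (b * a) % p = 1 := by rw [mul_comm]; exact hab
  have h1 : σ x = ∑ m ∈ Icc 1 (p - 1), (c ((b * m) % p) : O) * z ^ m := by
    rw [hx, map_sum]
    refine sum_bij' (fun k _ => (a * k) % p) (fun m _ => (b * m) % p)
      (fun k hk => sh_mod hp ha hk) (fun m hm => sh_mod hp hb hm)
      (fun k hk => sh_inv hp hab hk) (fun m hm => sh_inv hp hba hm) (fun k hk => ?_)
    rw [sh_inv hp hab hk, map_mul, map_intCast, map_pow, hσ, ← pow_mul, sh_pow hz (a * k)]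
  have h2 : ∑ m ∈ Icc 1 (p - 1), ((c ((b * m) % p) - c m : ℤ) : O) * z ^ m = 0 := by
    have h3 : ∑ m ∈ Icc 1 (p - 1), ((c ((b * m) % p) - c m : ℤ) : O) * z ^ m =
        ∑ m ∈ Icc 1 (p - 1), (c ((b * m) % p) : O) * z ^ m -
          ∑ m ∈ Icc 1 (p - 1), (c m : O) * z ^ m := by
      rw [← sum_sub_distrib]
      refine sum_congr rfl fun m _ => ?_
      push_cast
      ring
    rw [h3, ← h1, hσx, ← hx, sub_self]
  have h4 := coord hp hz (fun m => c ((b * m) % p) - c m) h2 _ (sh_mod hp ha hk)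
  rw [sh_inv hp hab hk] at h4
  linarith

theorem shape (h3 : p % 4 = 3) (hz : Cyc p z) (x : O)
    (h : ∀ (a : ℕ) (σ : O →+* O), legendreSym p (a : ℤ) = 1 → σ z = z ^ a → σ x = x) :
    ∃ X Y : ℤ, X % 2 = Y % 2 ∧ 2 * x = (X : O) + (Y : O) * Sg p z ∧
      ∀ (a : ℕ) (σ : O →+* O), legendreSym p (a : ℤ) = -1 → σ z = z ^ a → 2 * σ x = (X : O) - (Y : O) * Sg p z := by
  have hp : p.Prime := Fact.out
  have h1p : 1 ∈ Icc 1 (p - 1) := by rw [mem_Icc]; omega
  have hpp : p - 1 ∈ Icc 1 (p - 1) := by rw [mem_Icc]; omega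
  obtain ⟨c, hc⟩ := expand hp hz x
  have hndvd : ∀ {a : ℕ}, a ∈ Icc 1 (p - 1) → ¬ p ∣ a := by
    intro a ha hd
    rw [mem_Icc] at ha
    have := Nat.le_of_dvd (by omega) hd
    omega
  have hQ : ∀ k ∈ QR p, c k = c 1 := by
    intro a ha
    obtain ⟨ha1, ha2⟩ := mem_filter.1 ha
    obtain ⟨σ, hσ⟩ := aut hp hz a (hndvd ha1)
    have h4 := sh_eq hz c x hc ha1 hσ (h a σ ha2 hσ) h1p
    rw [mul_one, Nat.mod_eq_of_lt (by rw [mem_Icc] at ha1; omega)] at h4
    exact h4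
  have hN : ∀ k ∈ NR p, c k = c (p - 1) := by
    intro n hn
    obtain ⟨hn1, hn2⟩ := mem_filter.1 hn
    have hn1' := mem_Icc.1 hn1
    have ha1 : p - n ∈ Icc 1 (p - 1) := by rw [mem_Icc]; omega
    have ha2 : legendreSym p ((p - n : ℕ) : ℤ) = 1 := by
      rw [sh_leg h3 hn1, hn2]
      norm_num
    obtain ⟨σ, hσ⟩ := aut hp hz (p - n) (hndvd ha1)
    have h4 := sh_eq hz c x hc ha1 hσ (h (p - n) σ ha2 hσ) hpp
    have h5 : ((p - n) * (p - 1)) % p = n := by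
      have h6 : ((((p - n) * (p - 1) : ℕ) : ℤ)) = n + p * (p - n - 1) := by
        rw [Nat.cast_mul, Nat.cast_sub (by omega), Nat.cast_sub (by omega)]
        push_cast
        ring
      have h7 : (((p - n) * (p - 1) : ℕ) : ℤ) % p = n := by
        rw [h6, Int.add_mul_emod_self_left, Int.emod_eq_of_lt (by omega) (by omega)]
      exact_mod_cast h7
    rw [h5] at h4
    exact h4
  obtain ⟨hU, hD, -, -⟩ := QN (p := p) (by omega)
  have hS := Sg_eq (p := p) (z := z)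
  have hsum := sh_sum hp hz
  rw [← hU, sum_union hD] at hsum
  have hx : x = (c 1 : O) * ∑ k ∈ QR p, z ^ k + (c (p - 1) : O) * ∑ k ∈ NR p, z ^ k := by
    rw [hc, ← hU, sum_union hD, mul_sum, mul_sum]
    congr 1
    · exact sum_congr rfl fun k hk => by rw [hQ k hk]
    · exact sum_congr rfl fun k hk => by rw [hN k hk]
  have h2x : 2 * x = ((-(c 1 + c (p - 1)) : ℤ) : O) + ((c 1 - c (p - 1) : ℤ) : O) * Sg p z := by
    rw [hx, hS]
    push_cast
    linear_combination ((c 1 : O) + c (p - 1)) * hsum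
  refine ⟨-(c 1 + c (p - 1)), c 1 - c (p - 1), by omega, h2x, ?_⟩
  intro a σ ha hσ
  have hpa : ¬ p ∣ a := by
    intro hd
    have h5 : legendreSym p (a : ℤ) = 0 := by
      rw [legendreSym.eq_zero_iff]
      rw [Int.cast_natCast, ZMod.natCast_eq_zero_iff]
      exact hd
    rw [h5] at ha
    norm_num at ha
  have h6 := congrArg σ h2x
  rw [map_mul, map_add, map_mul, map_intCast, map_intCast, Sg_aut hz σ a hpa hσ, ha, map_ofNat]
    at h6
  rw [h6]
  push_cast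
  ring

theorem red (h3 : p % 4 = 3) (hz : Cyc p z) (a b N : ℤ) (h : (N : O) ∣ (a : O) + (b : O) * Sg p z) :
    N ∣ 2 * a ∧ N ∣ 2 * b := by
  have hp : p.Prime := Fact.out
  have h1p : 1 ∈ Icc 1 (p - 1) := by rw [mem_Icc]; omega
  have hpp : p - 1 ∈ Icc 1 (p - 1) := by rw [mem_Icc]; omega
  have e1 : (a : O) + (b : O) * Sg p z =
      ∑ k ∈ Icc 1 (p - 1), ((-a + b * legendreSym p (k : ℤ) : ℤ) : O) * z ^ k := by
    have h4 : ∑ k ∈ Icc 1 (p - 1), ((-a + b * legendreSym p (k : ℤ) : ℤ) : O) * z ^ k =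
        -(a : O) * ∑ k ∈ Icc 1 (p - 1), z ^ k + (b : O) * Sg p z := by
      unfold Sg
      rw [mul_sum, mul_sum, ← sum_add_distrib]
      refine sum_congr rfl fun k _ => ?_
      push_cast
      ring
    rw [h4, sh_sum hp hz]
    ring
  rw [e1] at h
  have h5 := coord_dvd hp hz _ N h
  have h6 := h5 1 h1p
  have h7 := h5 (p - 1) hpp
  rw [sh_leg1, mul_one] at h6
  rw [sh_leg h3 h1p, sh_leg1, mul_neg, mul_one] at h7
  constructor
  · have h8 := (dvd_add h6 h7)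
    have e2 : 2 * a = -(-a + b + (-a + -b)) := by ring
    rw [e2]
    exact (dvd_neg.2 h8)
  · have h8 := (dvd_sub h6 h7)
    have e2 : 2 * b = -a + b - (-a + -b) := by ring
    rw [e2]
    exact h8

end H5FB
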