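import Pool.Agent.H5.FB.Pr

/-!
# [H5 FB UN] the values at `1` and `-1`

* `P_neg`: `Rp_shape` for `x = 1`: `X^2 + p Y^2 = 4 p`, so `p ∣ X`, `X = p t`, `p t^2 + Y^2 = 4`, `p ≥ 7`, so `t = 0`, `X = 0` and `2 Np = - Y Sg = - 2 Rp`; cancel `2` (`2 ≠ 0` in `O`:
  `bas_div` with `m = 0`).
* `Rp_neg_one`: `∏_{c ∈ QR} (1 - z^(2c)) = ∏ (1 - z^c) ∏ (1 + z^c)`, the left side is `Rp p 1 z` if `(2/p) = 1` and `Np p 1 z = - Rp p 1 z` if `(2/p) = -1` (reindex by `c ↦ (2c) % p`, as in `Rp_aut`);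
  cancel `Rp p 1 z ≠ 0` (`Rp_mul_Np` at `x = 1` gives `Rp Np = p ≠ 0`): `∏_{c ∈ QR} (1 + z^c) = (2/p)`. `Rp p (-1) z = ∏ (-(1 + z^c)) = (-1)^((p-1)/2) (2/p) = -(2/p)`, as `(p-1)/2` is odd.
-/

namespace H5FB

open Finset Polynomial H5FA

variable {p : ℕ} [Fact p.Prime] {O : Type} [CommRing O] [IsDomain O] {z : O}

theorem P_neg (h3 : p % 4 = 3) (hp3 : 3 < p) (hz : Cyc p z) : Np p 1 z = - Rp p 1 z := by
  have hp : p.Prime := Fact.out
  obtain ⟨X, Y, -, h1, h2, h4⟩ := Rp_shape h3 hz 1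
  have h5 : X ^ 2 + p * Y ^ 2 = 4 * p := by
    rw [h4]
    simp
  have hpp : Prime (p : ℤ) := Nat.prime_iff_prime_int.1 hp
  have h6 : (p : ℤ) ∣ X := by
    apply hpp.dvd_of_dvd_pow (n := 2)
    exact ⟨4 - Y ^ 2, by linarith⟩
  obtain ⟨t, rfl⟩ := h6
  have hp0 : (0 : ℤ) < p := by exact_mod_cast hp.pos
  have h7 : (p : ℤ) * t ^ 2 + Y ^ 2 = 4 := by
    have h8 : (p : ℤ) * ((p : ℤ) * t ^ 2 + Y ^ 2) = p * 4 := by linarith
    exact mul_left_cancel₀ hp0.ne' h8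
  have hp7 : (7 : ℤ) ≤ p := by
    have h9 : 7 ≤ p := by
      by_contra hlt
      have h10 : p = 4 ∨ p = 5 ∨ p = 6 := by omega
      omega
    exact_mod_cast h9
  have ht : t = 0 := by
    by_contra hne
    have h8 : 1 ≤ t ^ 2 := by
      have h9 : 0 < t ^ 2 := by positivity
      omega
    nlinarith [sq_nonneg Y]
  rw [ht, mul_zero, Int.cast_zero] at h1 h2
  have h20 : (2 : O) ≠ 0 := by
    intro h
    have h8 := cast_inj (O := O) hz (n := 2) (m := 0) (by push_cast; exact h)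
    norm_num at h8
  apply mul_left_cancel₀ h20
  rw [h2, mul_neg, h1]
  ring

theorem Rp_neg_one (h3 : p % 4 = 3) (hp3 : 3 < p) (hz : Cyc p z) : Rp p (-1) z = -(legendreSym p 2 : O) := by
  have hp : p.Prime := Fact.out
  obtain ⟨-, -, hc, -⟩ := QN (p := p) (by omega)
  obtain ⟨T, hT⟩ : ∃ T : O, T = ∏ c ∈ QR p, (1 + z ^ c) := ⟨_, rfl⟩
  have e1 : Rp p 1 z = ∏ c ∈ QR p, (1 - z ^ c) := by
    unfold Rp
    rw [Int.cast_one]
  have e2 : Np p 1 z = ∏ c ∈ NR p, (1 - z ^ c) := by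
    unfold Np
    rw [Int.cast_one]
  have h1 : Rp p 1 z * T = ∏ c ∈ QR p, (1 - z ^ (2 * c)) := by
    rw [e1, hT, ← prod_mul_distrib]
    refine prod_congr rfl fun c _ => ?_
    ring
  have hl : legendreSym p ((2 : ℕ) : ℤ) = 1 ∨ legendreSym p ((2 : ℕ) : ℤ) = -1 := by
    apply legendreSym.eq_one_or_neg_one
    rw [Int.cast_natCast, Ne, ZMod.natCast_eq_zero_iff]
    intro hd
    have := Nat.le_of_dvd (by omega) hd
    omega
  have h2 : ∏ c ∈ QR p, (1 - z ^ (2 * c)) =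
      ∏ c ∈ (Icc 1 (p - 1)).filter (fun c => legendreSym p ((c : ℕ) : ℤ) = legendreSym p ((2 : ℕ) : ℤ) * 1),
        (1 - z ^ c) := by
    have h3 := prod_shift (p := p) (fun n => (1 : O) - z ^ n) (fun n => by rw [← pow_eq_pow_mod n hz.pow]) 2
      (by rcases hl with h | h <;> rw [h] <;> norm_num) 1 one_ne_zero
    exact h3
  have h4 : Rp p 1 z * T = (legendreSym p 2 : O) * Rp p 1 z := by
    rw [h1, h2]
    push_cast at hl
    push_cast
    rcases hl with h | h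
    · rw [h, mul_one, Int.cast_one, one_mul, e1]
      rfl
    · rw [h, mul_one, Int.cast_neg, Int.cast_one, neg_one_mul, ← P_neg h3 hp3 hz, e2]
      rfl
  have h5 : Rp p 1 z ≠ 0 := by
    intro h0
    have h6 := Rp_mul_Np (O := O) (by omega) hz 1
    rw [h0, zero_mul] at h6
    simp only [Int.cast_one, one_pow, sum_const, card_range, nsmul_eq_mul, mul_one] at h6
    have h8 := cast_inj (O := O) hz (n := (p : ℤ)) (m := 0) (by push_cast; exact h6.symm)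
    have := hp.pos
    omega
  have h6 : T = (legendreSym p 2 : O) := by
    apply mul_left_cancel₀ h5
    rw [h4]
    ring
  have h7 : Rp p (-1) z = (-1) ^ ((p - 1) / 2) * T := by
    unfold Rp
    rw [hT, ← hc, ← prod_const, ← prod_mul_distrib]
    refine prod_congr rfl fun c _ => ?_
    push_cast
    ring
  have h8 : Odd ((p - 1) / 2) := by
    rw [Nat.odd_iff]
    omega
  rw [h7, h8.neg_one_pow, h6]
  ring

end H5FB
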